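import Mathlib

set_option autoImplicit false

noncomputable section

namespace Pool.Agent.Lib.MP_67d80e_pr_d1

/-- the `m`-th digit of a profile -/
def dg (c m : ℕ) : ℕ := Nat.mod (Nat.div c (Nat.pow 8 m)) 8

/-- binary trees with natural numbers at the leaves -/
inductive Tr where
  | L (v : ℕ) : Tr
  | N (a b : Tr) : Tr

/-- the entry of index `n` -/
def Tr.get (t : Tr) : ℕ → ℕ :=
  Tr.rec (motive := fun _ => ℕ → ℕ) (fun v _ => v)
    (fun _ _ ga gb n => cond (Nat.beq (Nat.mod n 2) 0) (ga (Nat.div n 2)) (gb (Nat.div n 2))) t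

/-- conjunction of `f k` for `k < n` -/
def allN (n : ℕ) (f : ℕ → Bool) : Bool :=
  Nat.rec true (fun k ih => cond (f k) ih false) n

lemma allN_spec {n : ℕ} {f : ℕ → Bool} (h : allN n f = true) {k : ℕ} (hk : k < n) :
    f k = true := by
  induction n with
  | zero => omega
  | succ n ih =>
    have h' : cond (f n) (allN n f) false = true := h
    cases hf : f n with
    | false => rw [hf] at h'; simp at h'
    | true =>
      rw [hf] at h'
      rcases Nat.lt_succ_iff_lt_or_eq.1 hk with h1 | h1
      · exact ih h' h1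
      · rw [h1]; exact hf

/-- the digits of the profile `c` after a ring at the position `j` -/
def rg (c j m : ℕ) : ℕ :=
  cond (Nat.beq m j) (Nat.succ (dg c j))
    (cond (or (Nat.beq m (Nat.succ j)) (Nat.beq (Nat.succ m) j))
      (cond (Nat.ble (dg c m) (dg c j)) (dg c j) (dg c m)) (dg c m))

/-- the digit `k + 1` of the profile `T` is justified -/
def okd (c j T s g k : ℕ) : Bool :=
  or (Nat.beq (dg T (Nat.succ k)) 0) (Nat.ble (Nat.add (dg T (Nat.succ k)) g) (rg c j (Nat.add k s)))

/-- the profile `T`, shifted by `s - 1` sites and `g` levels, is justified after a ring at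
the position `j` of the profile `c` -/
def pok (K c j T s g : ℕ) : Bool :=
  and (Nat.beq (Nat.mod T 8) 0) (and (Nat.ble (Nat.succ T) (Nat.pow 8 (Nat.succ K)))
    (and (not (Nat.beq (dg c j) 0)) (allN K (okd c j T s g))))

end Pool.Agent.Lib.MP_67d80e_pr_d1
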