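import Pool.Agent.Lib.MP_67d80e_pr_d1.TabL

set_option autoImplicit false

namespace Pool.Agent.Lib.MP_67d80e_pr_d1

theorem chkL_0 : allN 512 (fun i => chkL (Nat.add 0 i)) = true := by decide +kernel

theorem chkL_1 : allN 512 (fun i => chkL (Nat.add 512 i)) = true := by decide +kernel

theorem chkL_2 : allN 512 (fun i => chkL (Nat.add 1024 i)) = true := by decide +kernel

theorem chkL_3 : allN 512 (fun i => chkL (Nat.add 1536 i)) = true := by decide +kernel

/-- all states pass the check -/
theorem chkL_all {i : ℕ} (hi : i < 2048) : chkL i = true := by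
  have key : ∀ b : ℕ, b ≤ i → i < b + 512 → allN 512 (fun j => chkL (Nat.add b j)) = true →
      chkL i = true := by
    intro b h1 h2 h3
    have h4 := allN_spec h3 (show i - b < 512 by omega)
    have h5 : Nat.add b (i - b) = i := by change b + (i - b) = i; omega
    simp only [h5] at h4
    exact h4
  by_cases h0 : i < 512
  · exact key 0 (by omega) (by omega) chkL_0
  by_cases h1 : i < 1024
  · exact key 512 (by omega) (by omega) chkL_1
  by_cases h2 : i < 1536
  · exact key 1024 (by omega) (by omega) chkL_2
  by_cases h3 : i < 2048
  · exact key 1536 (by omega) (by omega) chkL_3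
  omega

end Pool.Agent.Lib.MP_67d80e_pr_d1
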