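import Pool.Agent.Lib.MP_67d80e_pr_d1.TabU

set_option autoImplicit false

namespace Pool.Agent.Lib.MP_67d80e_pr_d1

theorem chkU_0 : allN 512 (fun i => chkU (Nat.add 0 i)) = true := by decide +kernel

theorem chkU_1 : allN 512 (fun i => chkU (Nat.add 512 i)) = true := by decide +kernel

theorem chkU_2 : allN 512 (fun i => chkU (Nat.add 1024 i)) = true := by decide +kernel

theorem chkU_3 : allN 512 (fun i => chkU (Nat.add 1536 i)) = true := by decide +kernel

theorem chkU_4 : allN 512 (fun i => chkU (Nat.add 2048 i)) = true := by decide +kernel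

theorem chkU_5 : allN 512 (fun i => chkU (Nat.add 2560 i)) = true := by decide +kernel

theorem chkU_6 : allN 512 (fun i => chkU (Nat.add 3072 i)) = true := by decide +kernel

theorem chkU_7 : allN 512 (fun i => chkU (Nat.add 3584 i)) = true := by decide +kernel

/-- all labels pass the check -/
theorem chkU_all {i : ℕ} (hi : i < 4096) : chkU i = true := by
  have key : ∀ b : ℕ, b ≤ i → i < b + 512 → allN 512 (fun j => chkU (Nat.add b j)) = true →
      chkU i = true := by
    intro b h1 h2 h3
    have h4 := allN_spec h3 (show i - b < 512 by omega)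
    have h5 : Nat.add b (i - b) = i := by change b + (i - b) = i; omega
    simp only [h5] at h4
    exact h4
  by_cases h0 : i < 512
  · exact key 0 (by omega) (by omega) chkU_0
  by_cases h1 : i < 1024
  · exact key 512 (by omega) (by omega) chkU_1
  by_cases h2 : i < 1536
  · exact key 1024 (by omega) (by omega) chkU_2
  by_cases h3 : i < 2048
  · exact key 1536 (by omega) (by omega) chkU_3
  by_cases h4 : i < 2560
  · exact key 2048 (by omega) (by omega) chkU_4
  by_cases h5 : i < 3072
  · exact key 2560 (by omega) (by omega) chkU_5
  by_cases h6 : i < 3584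
  · exact key 3072 (by omega) (by omega) chkU_6
  by_cases h7 : i < 4096
  · exact key 3584 (by omega) (by omega) chkU_7
  omega

end Pool.Agent.Lib.MP_67d80e_pr_d1
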