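import Pool.Agent.Lib.MP_67d80e_pr_d1.Term

set_option autoImplicit false

open scoped BigOperators ENNReal
open Filter MeasureTheory
open Pool.Agent.Lib.MP_67d80e_pr

namespace Pool.Agent.Lib.MP_67d80e_pr_d1

section
variable {N : ℕ} [NeZero N]

omit [NeZero N] in
lemma mem_TS_st1 {α : Fin 1 → ZMod N} {z : ℤ} : st1 z ∈ TS N α ↔ cls N (st1 z) = α := Iff.rfl

omit [NeZero N] in
lemma cls_st1_eq (hN : 9 ≤ N) {y z : ℤ} (h : cls N (st1 y) = cls N (st1 z)) (hyz : |y - z| ≤ 8) :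
    y = z := by
  have h1 : ((y : ℤ) : ZMod N) = ((z : ℤ) : ZMod N) := congrFun h 0
  rw [ZMod.intCast_eq_intCast_iff_dvd_sub] at h1
  obtain ⟨c, hc⟩ := h1
  by_contra hne
  have hc0 : c ≠ 0 := by
    rintro rfl
    apply hne
    omega
  have h4 : (N : ℤ) ≤ |z - y| := by
    rw [hc, abs_mul, abs_of_nonneg (by positivity : (0 : ℤ) ≤ (N : ℤ))]
    have : 1 ≤ |c| := Int.one_le_abs hc0
    nlinarith [(Nat.cast_nonneg N : (0 : ℤ) ≤ (N : ℤ))]
  rw [abs_sub_comm] at h4
  have h5 : (9 : ℤ) ≤ N := by exact_mod_cast hN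
  linarith

lemma sum_classes_le (hN : 9 ≤ N) (a : Dr) (z : ℤ) :
    ∑ α : Fin 1 → ZMod N, (own (TS N α) a z + cR (TS N α) a z + cL (TS N α) a z) ≤
      ((nT 1 N : ℝ) + 49 / 50) * wt a z := by
  classical
  by_cases hbot : a z = ⊥
  · have h0 : wq a z = 0 := by unfold wq; rw [if_pos hbot]
    unfold own cR cL wt
    simp only [h0]
    simp
  obtain ⟨hi, hmn, hval⟩ := lb_spec hbot
  obtain ⟨c1, c2, c3, c4, c5, c6⟩ := chkU_spec hi
  set i := lb a z with hidef
  set x : ℕ → ℤ := fun k => z - 5 + ((k + 1 : ℕ) : ℤ) with hx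
  -- the sums of the indicators
  have hone : ∀ (y : ℤ) (c : ℝ), ∑ α : Fin 1 → ZMod N, (if st1 y ∈ TS N α then c else 0) = c := by
    intro y c
    simp only [mem_TS_st1]
    rw [Finset.sum_ite_eq]
    simp
  have hinj : Set.InjOn (fun k => cls N (st1 (x k))) (Finset.range 9 : Finset ℕ) := by
    intro k hk k' hk' hkk
    have h1 : x k = x k' := by
      refine cls_st1_eq hN hkk ?_
      rw [Finset.coe_range, Set.mem_Iio] at hk hk'
      rw [hx]
      simp only
      rw [abs_le]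
      constructor <;> omega
    rw [hx] at h1
    simp only at h1
    omega
  have hcard : ((Finset.univ.filter fun α : Fin 1 → ZMod N =>
      ∀ k ∈ Finset.range 9, st1 (x k) ∉ TS N α).card : ℝ) = nT 1 N - 9 := by
    have h1 : (Finset.univ.filter fun α : Fin 1 → ZMod N =>
        ∀ k ∈ Finset.range 9, st1 (x k) ∉ TS N α) =
        Finset.univ \ (Finset.range 9).image (fun k => cls N (st1 (x k))) := by
      ext α
      simp only [Finset.mem_filter, Finset.mem_univ, true_and, Finset.mem_sdiff, Finset.mem_image,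
        mem_TS_st1]
      constructor
      · rintro h ⟨k, hk, hk'⟩
        exact h k hk hk'
      · intro h k hk hk'
        exact h ⟨k, hk, hk'⟩
    have h2 : ((Finset.range 9).image (fun k => cls N (st1 (x k)))).card = 9 := by
      rw [Finset.card_image_of_injOn hinj, Finset.card_range]
    rw [h1, Finset.card_sdiff_of_subset (Finset.subset_univ _), h2]
    have h3 : 9 ≤ (Finset.univ : Finset (Fin 1 → ZMod N)).card := by
      rw [← h2]
      exact Finset.card_le_card (Finset.subset_univ _)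
    rw [Nat.cast_sub h3]
    rfl
  have hA : ∑ α : Fin 1 → ZMod N, (if ∀ k ∈ Finset.range 9, st1 (x k) ∉ TS N α then
      35 * (phiU i : ℝ) else 0) = (nT 1 N - 9) * (35 * phiU i) := by
    rw [← Finset.sum_filter, Finset.sum_const, nsmul_eq_mul, hcard]
  have hB : ∑ α : Fin 1 → ZMod N, ∑ k ∈ Finset.range 9, (if st1 (x k) ∈ TS N α then
      (vU i (codU i) (k + 1) : ℝ) else 0) = ∑ k ∈ Finset.range 9, (vU i (codU i) (k + 1) : ℝ) := by
    rw [Finset.sum_comm]
    exact Finset.sum_congr rfl fun k _ => hone _ _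
  have hR : ∑ α : Fin 1 → ZMod N, (if st1 z ∈ TS N α ∧ dg (codU i) 6 ≤ 3 then
      49 * (phiU (tgU i 0) : ℝ) else 0) =
      if dg (codU i) 6 ≤ 3 then 49 * (phiU (tgU i 0) : ℝ) else 0 := by
    by_cases h : dg (codU i) 6 ≤ 3
    · simp only [h, and_true, if_true]
      exact hone _ _
    · simp [h]
  have hL : ∑ α : Fin 1 → ZMod N, (if st1 z ∈ TS N α ∧ dg (codU i) 4 ≤ 2 then
      25 * (phiU (tgU i 10) : ℝ) else 0) =
      if dg (codU i) 4 ≤ 2 then 25 * (phiU (tgU i 10) : ℝ) else 0 := by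
    by_cases h : dg (codU i) 4 ≤ 2
    · simp only [h, and_true, if_true]
      exact hone _ _
    · simp [h]
  have htot : ∑ α : Fin 1 → ZMod N, (own (TS N α) a z + cR (TS N α) a z + cL (TS N α) a z) =
      wq a z / 35 * ((nT 1 N - 9) * (35 * phiU i) +
        ∑ k ∈ Finset.range 9, (vU i (codU i) (k + 1) : ℝ) +
        ((if dg (codU i) 6 ≤ 3 then 49 * (phiU (tgU i 0) : ℝ) else 0) +
        (if dg (codU i) 4 ≤ 2 then 25 * (phiU (tgU i 10) : ℝ) else 0))) := by
    rw [← hA, ← hB, ← hR, ← hL, Finset.sum_add_distrib, Finset.sum_add_distrib]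
    unfold own cR cL
    rw [← Finset.mul_sum, ← Finset.mul_sum, ← Finset.mul_sum, Finset.sum_add_distrib]
    ring
  rw [htot]
  have hw : (wU i (codU i) : ℝ) = (if dg (codU i) 6 ≤ 3 then 49 * (phiU (tgU i 0) : ℝ) else 0) +
        (if dg (codU i) 4 ≤ 2 then 25 * (phiU (tgU i 10) : ℝ) else 0) := by
    unfold wU
    simp only [cond_eq, ble_iff]
    change (((if dg (codU i) 6 ≤ 3 then 49 * phiU (tgU i 0) else 0) +
      (if dg (codU i) 4 ≤ 2 then 25 * phiU (tgU i 10) else 0) : ℕ) : ℝ) = _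
    push_cast
    rfl
  rw [← hw]
  have hc : (10 : ℝ) * (wU i (codU i) + ∑ k ∈ Finset.range 9, (vU i (codU i) (k + 1) : ℝ)) ≤
      3493 * phiU i := by exact_mod_cast c6
  have hq := wq_nonneg a z
  unfold wt
  rw [hmn]
  have h1 : ((nT 1 N : ℝ) + 49 / 50) * (wq a z * phiU i) =
      wq a z / 35 * ((nT 1 N - 9) * (35 * phiU i) + 3493 / 10 * phiU i) := by ring
  rw [h1]
  refine mul_le_mul_of_nonneg_left ?_ (by positivity)
  linarith

end

/-- the potential of a droplet -/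
noncomputable def Psi (a : Dr) : ℝ≥0∞ := ∑' z : ℤ, ENNReal.ofReal (wt a z)

lemma tsum_cR (S : Set (Site 1)) (a : Dr) :
    ∑' z : ℤ, ENNReal.ofReal (cR S a (z - 1)) = ∑' z : ℤ, ENNReal.ofReal (cR S a z) :=
  (Equiv.subRight (1 : ℤ)).tsum_eq (fun z => ENNReal.ofReal (cR S a z))

lemma tsum_cL (S : Set (Site 1)) (a : Dr) :
    ∑' z : ℤ, ENNReal.ofReal (cL S a (z + 1)) = ∑' z : ℤ, ENNReal.ofReal (cL S a z) :=
  (Equiv.addRight (1 : ℤ)).tsum_eq (fun z => ENNReal.ofReal (cL S a z))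

/-- the drift inequality for the potential -/
theorem Psi_sum_le {N : ℕ} [NeZero N] (hN : 9 ≤ N) (a : Dr) :
    ∑ α : Fin 1 → ZMod N, Psi (upd (TS N α) a) ≤
      ENNReal.ofReal ((nT 1 N : ℝ) + 49 / 50) * Psi a := by
  have h1 : ∀ α : Fin 1 → ZMod N, Psi (upd (TS N α) a) ≤
      ∑' z : ℤ, ENNReal.ofReal (own (TS N α) a z + cR (TS N α) a z + cL (TS N α) a z) := by
    intro α
    have hS : ∀ y z : ℤ, st1 y ∈ TS N α → st1 z ∈ TS N α → |y - z| ≤ 8 → y = z := by
      intro y z hy hz hyz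
      exact cls_st1_eq hN ((mem_TS_st1.1 hy).trans (mem_TS_st1.1 hz).symm) hyz
    have h2 : Psi (upd (TS N α) a) ≤ ∑' z : ℤ, (ENNReal.ofReal (own (TS N α) a z) +
        ENNReal.ofReal (cR (TS N α) a (z - 1)) + ENNReal.ofReal (cL (TS N α) a (z + 1))) := by
      refine ENNReal.tsum_le_tsum fun z => ?_
      rw [← ENNReal.ofReal_add (own_nonneg _ _ _) (cR_nonneg _ _ _),
        ← ENNReal.ofReal_add (add_nonneg (own_nonneg _ _ _) (cR_nonneg _ _ _)) (cL_nonneg _ _ _)]
      exact ENNReal.ofReal_le_ofReal (wt_upd_le hS a z)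
    refine h2.trans (le_of_eq ?_)
    rw [ENNReal.tsum_add, ENNReal.tsum_add, tsum_cR, tsum_cL, ← ENNReal.tsum_add,
      ← ENNReal.tsum_add]
    refine tsum_congr fun z => ?_
    rw [ENNReal.ofReal_add (add_nonneg (own_nonneg _ _ _) (cR_nonneg _ _ _)) (cL_nonneg _ _ _),
      ENNReal.ofReal_add (own_nonneg _ _ _) (cR_nonneg _ _ _)]
  refine (Finset.sum_le_sum fun α _ => h1 α).trans ?_
  rw [← (Summable.tsum_finsetSum fun α _ => ENNReal.summable), Psi, ← ENNReal.tsum_mul_left]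
  refine ENNReal.tsum_le_tsum fun z => ?_
  rw [← ENNReal.ofReal_sum_of_nonneg (fun α _ =>
      add_nonneg (add_nonneg (own_nonneg _ _ _) (cR_nonneg _ _ _)) (cL_nonneg _ _ _)),
    ← ENNReal.ofReal_mul (by positivity)]
  exact ENNReal.ofReal_le_ofReal (sum_classes_le hN a z)

/-! ### finiteness -/

lemma phiU_lt (i : ℕ) : phiU i < 1048576 := Nat.mod_lt _ (by norm_num)

lemma wq_le_wt (a : Dr) (z : ℤ) : wq a z ≤ wt a z := by
  unfold wt
  by_cases h : a z = ⊥
  · unfold wq; rw [if_pos h]; simp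
  · have h1 : (1 : ℝ) ≤ mn a z := by exact_mod_cast mn_pos h
    have := wq_nonneg a z
    nlinarith

lemma wt_le_wq (a : Dr) (z : ℤ) : wt a z ≤ wq a z * 1048576 := by
  unfold wt
  refine mul_le_mul_of_nonneg_left ?_ (wq_nonneg a z)
  by_cases h : a z = ⊥
  · have : mn a z < 1048576 ∨ mn a z = 0 := by
      by_cases h0 : (Lab a z).Nonempty
      · obtain ⟨i, -, h1, -⟩ := Nat.sInf_mem h0
        left
        change sInf (Lab a z) < _
        rw [h1]; exact phiU_lt i
      · right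
        rw [Set.not_nonempty_iff_eq_empty] at h0
        change sInf (Lab a z) = 0
        rw [h0, Nat.sInf_empty]
    rcases this with h1 | h1
    · exact_mod_cast h1.le
    · rw [h1]; norm_num
  · rw [(lb_spec h).2.1]
    exact_mod_cast (phiU_lt _).le

lemma wq_eq {a : Dr} {z n : ℤ} (h : a z = (n : WithBot ℤ)) : wq a z = (7 / 5 : ℝ) ^ (n + z) := by
  unfold wq
  rw [if_neg (by rw [h]; exact WithBot.coe_ne_bot), lv_coe h]

lemma wq_upd_le (S : Set (Site 1)) (a : Dr) (z : ℤ) :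
    wq (upd S a) z ≤ 7 / 5 * wq a z + 7 / 5 * wq a (z - 1) + 7 / 5 * wq a (z + 1) := by
  classical
  have n1 := wq_nonneg a z
  have n2 := wq_nonneg a (z - 1)
  have n3 := wq_nonneg a (z + 1)
  by_cases hbot : upd S a z = ⊥
  · have : wq (upd S a) z = 0 := by unfold wq; rw [if_pos hbot]
    rw [this]; positivity
  obtain ⟨n, hn⟩ := WithBot.ne_bot_iff_exists.1 hbot
  have hn := hn.symm
  rw [wq_eq hn]
  have h1 : ((n : ℤ) : WithBot ℤ) ≤ upd S a z := hn.ge
  unfold upd at h1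
  have key : ∀ {b : WithBot ℤ} {c : ℤ}, ((c : ℤ) : WithBot ℤ) ≤ b → ∃ k : ℤ, b = (k : WithBot ℤ) ∧
      c ≤ k := by
    intro b c hb
    induction b with
    | bot => exact absurd hb (by simp)
    | coe k => exact ⟨k, rfl, by exact_mod_cast hb⟩
  rcases le_max_iff.1 h1 with h2 | h2
  · have h3 : ((n : ℤ) : WithBot ℤ) ≤ a z + 1 := by
      refine h2.trans ?_
      split_ifs
      · exact le_rfl
      · exact le_add_one _
    have h4 : ∃ k : ℤ, a z = (k : WithBot ℤ) ∧ n ≤ k + 1 := by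
      induction hb : a z with
      | bot => rw [hb] at h3; exact absurd h3 (by simp)
      | coe k =>
        rw [hb] at h3
        exact ⟨k, rfl, by exact_mod_cast h3⟩
    obtain ⟨k, hk, hnk⟩ := h4
    rw [wq_eq hk] at n1 ⊢
    have h5 : (7 / 5 : ℝ) ^ (n + z) ≤ (7 / 5 : ℝ) ^ (k + z + 1) :=
      zpow_le_zpow_right₀ (by norm_num) (by linarith)
    rw [zpow_add_one₀ (by norm_num)] at h5
    linarith
  · rcases le_max_iff.1 h2 with h3 | h3
    · have h4 : ((n : ℤ) : WithBot ℤ) ≤ a (z + 1) := by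
        refine h3.trans ?_
        split_ifs
        · exact le_rfl
        · exact bot_le
      obtain ⟨k, hk, hnk⟩ := key h4
      rw [wq_eq hk] at n3 ⊢
      have h5 : (7 / 5 : ℝ) ^ (n + z) ≤ (7 / 5 : ℝ) ^ (k + (z + 1)) :=
        zpow_le_zpow_right₀ (by norm_num) (by linarith)
      linarith
    · have h4 : ((n : ℤ) : WithBot ℤ) ≤ a (z - 1) := by
        refine h3.trans ?_
        split_ifs
        · exact le_rfl
        · exact bot_le
      obtain ⟨k, hk, hnk⟩ := key h4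
      rw [wq_eq hk] at n2 ⊢
      have h5 : (7 / 5 : ℝ) ^ (n + z) ≤ (7 / 5 : ℝ) ^ (k + (z - 1) + 1) :=
        zpow_le_zpow_right₀ (by norm_num) (by linarith)
      rw [zpow_add_one₀ (by norm_num)] at h5
      linarith

lemma Psi_upd_ne_top {a : Dr} (h : Psi a ≠ ⊤) (S : Set (Site 1)) : Psi (upd S a) ≠ ⊤ := by
  have h1 : Psi (upd S a) ≤ ENNReal.ofReal (7 / 5 * 1048576) * (Psi a + Psi a + Psi a) := by
    have e1 : ∑' z : ℤ, ENNReal.ofReal (wt a (z - 1)) = Psi a :=
      (Equiv.subRight (1 : ℤ)).tsum_eq (fun z => ENNReal.ofReal (wt a z))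
    have e2 : ∑' z : ℤ, ENNReal.ofReal (wt a (z + 1)) = Psi a :=
      (Equiv.addRight (1 : ℤ)).tsum_eq (fun z => ENNReal.ofReal (wt a z))
    have e3 : Psi a + Psi a + Psi a = ∑' z : ℤ, (ENNReal.ofReal (wt a z) +
        ENNReal.ofReal (wt a (z - 1)) + ENNReal.ofReal (wt a (z + 1))) := by
      rw [ENNReal.tsum_add, ENNReal.tsum_add, e1, e2]
      rfl
    rw [e3, ← ENNReal.tsum_mul_left]
    refine ENNReal.tsum_le_tsum fun z => ?_
    have n1 := wt_nonneg a z
    have n2 := wt_nonneg a (z - 1)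
    have n3 := wt_nonneg a (z + 1)
    rw [← ENNReal.ofReal_add n1 n2, ← ENNReal.ofReal_add (add_nonneg n1 n2) n3,
      ← ENNReal.ofReal_mul (by norm_num)]
    refine ENNReal.ofReal_le_ofReal ?_
    have h2 := wt_le_wq (upd S a) z
    have h3 := wq_upd_le S a z
    have h4 := wq_le_wt a z
    have h5 := wq_le_wt a (z - 1)
    have h6 := wq_le_wt a (z + 1)
    linarith
  refine ne_top_of_le_ne_top ?_ h1
  exact ENNReal.mul_ne_top ENNReal.ofReal_ne_top
    (ENNReal.add_ne_top.2 ⟨ENNReal.add_ne_top.2 ⟨h, h⟩, h⟩)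

lemma Psi_dr_ne_top (w : List (Site 1)) : Psi (dr w) ≠ ⊤ := by
  induction w with
  | nil =>
    unfold Psi
    rw [tsum_eq_single 0]
    · exact ENNReal.ofReal_ne_top
    · intro z hz
      have : wt (dr []) z = 0 := by
        unfold wt wq
        rw [if_pos (by simp [dr, hz]), zero_mul]
      rw [this, ENNReal.ofReal_zero]
  | cons x w ih => exact Psi_upd_ne_top ih {x}

end Pool.Agent.Lib.MP_67d80e_pr_d1
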