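import Pool.Agent.Lib.MP_67d80e_pr.Props
import Pool.Agent.Lib.MP_67d80e_pr_d1.Cert

set_option autoImplicit false

open scoped BigOperators
open Filter MeasureTheory
open Pool.Agent.Lib.MP_67d80e_pr

namespace Pool.Agent.Lib.MP_67d80e_pr_d1

/-- the site of the line with a given coordinate -/
def st1 (z : ℤ) : Site 1 := fun _ => z

lemma st1_apply (z : ℤ) (i : Fin 1) : st1 z i = z := rfl

lemma st1_eta (x : Site 1) : st1 (x 0) = x := by
  ext i
  rw [Subsingleton.elim i 0]
  rfl

lemma st1_inj {y z : ℤ} : st1 y = st1 z ↔ y = z := by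
  constructor
  · intro h; exact congrFun h 0
  · rintro rfl; rfl

lemma st1_add_e (z : ℤ) (i : Fin 1) : st1 z + e i = st1 (z + 1) := by
  ext j
  rw [Subsingleton.elim j i, Pi.add_apply, e_apply_self]
  rfl

lemma st1_sub_e (z : ℤ) (i : Fin 1) : st1 z - e i = st1 (z - 1) := by
  ext j
  rw [Subsingleton.elim j i, Pi.sub_apply, e_apply_self]
  rfl

lemma st1_zero : st1 0 = 0 := rfl

/-- the heights of droplets -/
abbrev Dr := ℤ → WithBot ℤ

open Classical in
/-- the droplet after a ring at the sites of `S` (going backwards in time) -/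
noncomputable def upd (S : Set (Site 1)) (a : Dr) : Dr := fun z =>
  max (if st1 z ∈ S then a z + 1 else a z)
    (max (if st1 (z + 1) ∈ S then a (z + 1) else ⊥) (if st1 (z - 1) ∈ S then a (z - 1) else ⊥))

lemma le_add_one (b : WithBot ℤ) : b ≤ b + 1 := by
  induction b with
  | bot => exact bot_le
  | coe b => exact_mod_cast (by omega : b ≤ b + 1)

lemma le_upd (S : Set (Site 1)) (a : Dr) (z : ℤ) : a z ≤ upd S a z := by
  unfold upd
  refine le_trans ?_ (le_max_left _ _)
  split_ifs
  · exact le_add_one _
  · exact le_rfl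

lemma upd_self {S : Set (Site 1)} {z : ℤ} (h : st1 z ∈ S) (a : Dr) : a z + 1 ≤ upd S a z := by
  unfold upd
  refine le_trans ?_ (le_max_left _ _)
  rw [if_pos h]

lemma upd_right {S : Set (Site 1)} {z : ℤ} (h : st1 z ∈ S) (a : Dr) : a z ≤ upd S a (z + 1) := by
  unfold upd
  refine le_trans ?_ ((le_max_right _ _).trans (le_max_right _ _))
  rw [add_sub_cancel_right, if_pos h]

lemma upd_left {S : Set (Site 1)} {z : ℤ} (h : st1 z ∈ S) (a : Dr) : a z ≤ upd S a (z - 1) := by
  unfold upd
  refine le_trans ?_ ((le_max_left _ _).trans (le_max_right _ _))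
  rw [sub_add_cancel, if_pos h]

/-! ### duality -/

/-- the droplet `a` dominates the functional `F` -/
def Dom (a : Dr) (F : Conf 1 → ℤ) : Prop :=
  ∀ h, ∃ z n : ℤ, ((n : ℤ) : WithBot ℤ) ≤ a z ∧ F h ≤ n + h (st1 z)

lemma Dom.ring {a : Dr} {F : Conf 1 → ℤ} (hF : Dom a F) (S : Set (Site 1)) :
    Dom (upd S a) (fun h => F (ringSet S h)) := by
  intro h
  obtain ⟨z, n, h1, h2⟩ := hF (ringSet S h)
  by_cases hz : st1 z ∈ S
  · rw [ringSet_of_mem hz] at h2
    rcases newHeight_eq_or h (st1 z) with h3 | ⟨i, h3 | h3⟩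
    · refine ⟨z, n + 1, ?_, ?_⟩
      · refine le_trans ?_ (upd_self hz a)
        push_cast
        gcongr
      · rw [h3] at h2; linarith
    · refine ⟨z + 1, n, h1.trans (upd_right hz a), ?_⟩
      rw [h3, st1_add_e] at h2; exact h2
    · refine ⟨z - 1, n, h1.trans (upd_left hz a), ?_⟩
      rw [h3, st1_sub_e] at h2; exact h2
  · rw [ringSet_of_notMem hz] at h2
    exact ⟨z, n, h1.trans (le_upd S a z), h2⟩

/-- the droplet of a word -/
noncomputable def dr : List (Site 1) → Dr
  | [] => fun z => if z = 0 then 0 else ⊥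
  | x :: w => upd {x} (dr w)

lemma dom_dr (w : List (Site 1)) : Dom (dr w) (fun h => act w h 0) := by
  induction w with
  | nil =>
    intro h
    refine ⟨0, 0, ?_, ?_⟩
    · simp [dr]
    · change act [] h 0 ≤ _
      rw [act_nil, st1_zero]; simp
  | cons x w ih =>
    have h1 := ih.ring {x}
    intro h
    obtain ⟨z, n, h2, h3⟩ := h1 h
    refine ⟨z, n, h2, ?_⟩
    change act (x :: w) h 0 ≤ _
    rw [act_cons, ring_eq_ringSet]
    exact h3

lemma dr_le (w : List (Site 1)) (g : Conf 1) {z n : ℤ} (h : ((n : ℤ) : WithBot ℤ) ≤ dr w z) :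
    n + g (st1 z) ≤ act w g 0 := by
  induction w generalizing g z n with
  | nil =>
    simp only [dr] at h
    split_ifs at h with hz
    · subst hz
      have : n ≤ 0 := by exact_mod_cast h
      rw [act_nil, st1_zero]
      linarith
    · exact absurd h (by simp)
  | cons x w ih =>
    rw [act_cons]
    have hx : x = st1 (x 0) := (st1_eta x).symm
    have hge : ∀ y, g y ≤ ring x g y := by
      intro y
      rw [ring_eq_ringSet]
      exact le_ringSet _ g y
    simp only [dr, upd, Set.mem_singleton_iff] at h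
    rcases le_max_iff.1 h with h1 | h1
    · split_ifs at h1 with hz
      · have h2 : (((n - 1 : ℤ)) : WithBot ℤ) ≤ dr w z := by
          induction hd : dr w z with
          | bot => rw [hd] at h1; simp at h1
          | coe b =>
            rw [hd] at h1
            have : n ≤ b + 1 := by exact_mod_cast h1
            exact_mod_cast (by omega : n - 1 ≤ b)
        have h3 := ih (ring x g) h2
        rw [hz, ring_self] at h3
        have h4 := succ_le_newHeight g x
        rw [hz]
        linarith
      · have h3 := ih (ring x g) h1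
        have := hge (st1 z)
        linarith
    · rcases le_max_iff.1 h1 with h2 | h2
      · split_ifs at h2 with hz
        · have h3 := ih (ring x g) h2
          rw [hz, ring_self] at h3
          have h4 := sub_le_newHeight g x 0
          rw [← hz, st1_sub_e, add_sub_cancel_right, hz] at h4
          linarith
        · exact absurd h2 (by simp)
      · split_ifs at h2 with hz
        · have h3 := ih (ring x g) h2
          rw [hz, ring_self] at h3
          have h4 := add_le_newHeight g x 0
          rw [← hz, st1_add_e, sub_add_cancel, hz] at h4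
          linarith
        · exact absurd h2 (by simp)

/-! ### profiles -/

/-- the digits of `c` bound the droplet from below, relative to the level `b`, from the site `p`
on -/
def Val (a : Dr) (c : ℕ) (p b : ℤ) : Prop :=
  ∀ m : ℕ, dg c m ≠ 0 → ((b + dg c m : ℤ) : WithBot ℤ) ≤ a (p + m)

lemma Val.mono {a a' : Dr} {c : ℕ} {p b : ℤ} (h : Val a c p b) (haa : ∀ z, a z ≤ a' z) :
    Val a' c p b := fun m hm => (h m hm).trans (haa _)

lemma dg_eq (c m : ℕ) : dg c m = c / 8 ^ m % 8 := rfl

lemma band_iff {a b : Bool} : and a b = true ↔ a = true ∧ b = true := by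
  cases a <;> cases b <;> simp

lemma bor_iff {a b : Bool} : or a b = true ↔ a = true ∨ b = true := by
  cases a <;> cases b <;> simp

lemma bnot_iff {a : Bool} : not a = true ↔ ¬ a = true := by
  cases a <;> simp

lemma beq_iff {a b : ℕ} : Nat.beq a b = true ↔ a = b := by
  rw [Nat.beq_eq]

lemma ble_iff {a b : ℕ} : Nat.ble a b = true ↔ a ≤ b := by
  rw [Nat.ble_eq]

lemma cond_eq {α : Type*} (b : Bool) (x y : α) : cond b x y = if b = true then x else y := by
  cases b <;> simp

lemma pok_spec {K c j T s g : ℕ} (h : pok K c j T s g = true) :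
    dg c j ≠ 0 ∧ ∀ m, dg T m ≠ 0 → 1 ≤ m ∧ m ≤ K ∧ dg T m + g ≤ rg c j (m - 1 + s) := by
  unfold pok at h
  rw [band_iff, band_iff, band_iff, bnot_iff, beq_iff, beq_iff, ble_iff] at h
  obtain ⟨h1, h2, h3, h4⟩ := h
  refine ⟨h3, fun m hm => ?_⟩
  have hm1 : 1 ≤ m := by
    by_contra hcon
    have : m = 0 := by omega
    subst this
    apply hm
    rw [dg_eq, pow_zero, Nat.div_one]
    exact h1
  have hmK : m ≤ K := by
    by_contra hcon
    apply hm
    have h5 : T < 8 ^ m := by
      have h6 : T < 8 ^ (K + 1) := h2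
      exact h6.trans_le (Nat.pow_le_pow_right (by norm_num) (by omega))
    rw [dg_eq, Nat.div_eq_of_lt h5]
  refine ⟨hm1, hmK, ?_⟩
  have h5 := allN_spec h4 (show m - 1 < K by omega)
  unfold okd at h5
  rw [bor_iff, beq_iff, ble_iff] at h5
  have h6 : Nat.succ (m - 1) = m := by omega
  rw [h6] at h5
  rcases h5 with h5 | h5
  · exact absurd h5 hm
  · exact h5

lemma rg_eq (c j m : ℕ) : rg c j m = if m = j then dg c j + 1 else
    if m = j + 1 ∨ m + 1 = j then max (dg c m) (dg c j) else dg c m := by
  unfold rg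
  simp only [cond_eq, beq_iff, bor_iff, ble_iff, Nat.succ_eq_add_one]
  split_ifs with h1 h2 h3
  · rfl
  · rw [max_eq_right h3]
  · rw [max_eq_left (by omega)]
  · rfl

/-- validity of the target after a ring -/
lemma Val.step {a : Dr} {S : Set (Site 1)} {K c j T s g : ℕ} {p b : ℤ} (h : Val a c p b)
    (hj : st1 (p + j) ∈ S) (hp : pok K c j T s g = true) :
    Val (upd S a) T (p + s - 1) (b + g) := by
  obtain ⟨h1, h2⟩ := pok_spec hp
  have hself : ((b + dg c j + 1 : ℤ) : WithBot ℤ) ≤ upd S a (p + j) := by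
    refine le_trans ?_ (upd_self hj a)
    have := h j h1
    push_cast at this ⊢
    gcongr
  intro m hm
  obtain ⟨hm1, hmK, h3⟩ := h2 m hm
  set r := m - 1 + s with hr
  have hpos : p + s - 1 + m = p + r := by rw [hr]; push_cast [hm1]; ring
  rw [hpos]
  have h4 : ((b + (g : ℕ) + dg T m : ℤ) : WithBot ℤ) ≤ ((b + rg c j r : ℤ) : WithBot ℤ) := by
    have : b + (g : ℤ) + dg T m ≤ b + rg c j r := by
      have : ((dg T m + g : ℕ) : ℤ) ≤ (rg c j r : ℕ) := by exact_mod_cast h3
      push_cast at this
      linarith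
    exact_mod_cast this
  refine h4.trans ?_
  have h5 : rg c j r ≠ 0 := by omega
  rw [rg_eq] at h5 ⊢
  split_ifs at h5 ⊢ with e1 e2
  · rw [e1]
    push_cast at hself ⊢
    rw [← add_assoc]
    exact hself
  · have hn : ((b + dg c j : ℤ) : WithBot ℤ) ≤ upd S a (p + r) := by
      refine (h j h1).trans ?_
      rcases e2 with e2 | e2
      · have : p + (r : ℤ) = p + j + 1 := by rw [e2]; push_cast; ring
        rw [this]
        exact upd_right hj a
      · have : p + (r : ℤ) = p + j - 1 := by rw [← e2]; push_cast; ring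
        rw [this]
        exact upd_left hj a
    rcases le_total (dg c r) (dg c j) with h6 | h6
    · rw [max_eq_right h6]; exact hn
    · rw [max_eq_left h6]
      exact (h r (by omega)).trans (le_upd S a _)
  · exact (h r h5).trans (le_upd S a _)

end Pool.Agent.Lib.MP_67d80e_pr_d1
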