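import Pool.Agent.Lib.MP_67d80e_pr_d1.Drop
import Pool.Agent.Lib.MP_67d80e_pr_d1.ChkL

set_option autoImplicit false

open scoped BigOperators
open Filter MeasureTheory
open Pool.Agent.Lib.MP_67d80e_pr

namespace Pool.Agent.Lib.MP_67d80e_pr_d1

lemma sumL_eq (n : ℕ) (f : ℕ → ℕ) : sumL n f = ∑ k ∈ Finset.range n, f k := by
  induction n with
  | zero => rfl
  | succ n ih =>
    change f n + sumL n f = _
    rw [Finset.sum_range_succ, ← ih, add_comm (f n)]

lemma tL_lt (i k : ℕ) : tL i k < 2048 := Nat.mod_lt _ (by norm_num)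

lemma fL_lt (i : ℕ) : fL i < 262144 := Nat.mod_lt _ (by norm_num)

lemma allN_of {n : ℕ} {f : ℕ → Bool} (h : ∀ k, k < n → f k = true) : allN n f = true := by
  induction n with
  | zero => rfl
  | succ n ih =>
    change cond (f n) (allN n f) false = true
    rw [h n (by omega), cond_true]
    exact ih fun k hk => h k (by omega)

lemma chkL_spec {i : ℕ} (hi : i < 2048) : (∃ k, k < 8 ∧ dg (codL i) (k + 1) ≠ 0) ∧
    (∀ k, k < 8 → dg (codL i) (k + 1) ≠ 0 → fL i ≤ 100000 * gL i k + fL (tL i k) ∧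
      sL i k ≤ 2 ∧ pok 8 (codL i) (k + 1) (codL (tL i k)) (sL i k) (gL i k) = true) ∧
    191500 ≤ ∑ k ∈ Finset.range 8, vL i k := by
  have h := chkL_all hi
  unfold chkL at h
  simp only [band_iff, bnot_iff, ble_iff] at h
  obtain ⟨h1, h2, h3⟩ := h
  refine ⟨?_, fun k hk hd => ?_, ?_⟩
  · by_contra hcon
    push Not at hcon
    apply h1
    refine allN_of fun k hk => ?_
    rw [beq_iff]
    exact hcon k hk
  · have h4 := allN_spec h2 hk
    unfold okL at h4
    simp only [bor_iff, band_iff, beq_iff, ble_iff] at h4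
    rcases h4 with h4 | h4
    · exact absurd h4 hd
    · exact h4
  · rw [sumL_eq] at h3
    exact h3

/-- the states of the exploration: position, level, index -/
abbrev ES := ℤ × ℤ × ℕ

/-- the state after a ring at position `k + 1` -/
noncomputable def stepK (s : ES) (k : ℕ) : ES :=
  (s.1 + sL s.2.2 k - 1, s.2.1 + gL s.2.2 k, tL s.2.2 k)

open Classical in
/-- the exploration -/
noncomputable def stepE (x : Site 1) (s : ES) : ES :=
  if h : ∃ k : ℕ, k < 8 ∧ x = st1 (s.1 + ((k + 1 : ℕ) : ℤ)) ∧ dg (codL s.2.2) (k + 1) ≠ 0 then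
    stepK s h.choose else s

lemma stepE_of {x : Site 1} {s : ES} {k : ℕ} (hk : k < 8)
    (hx : x = st1 (s.1 + ((k + 1 : ℕ) : ℤ))) (hd : dg (codL s.2.2) (k + 1) ≠ 0) :
    stepE x s = stepK s k := by
  have h : ∃ k : ℕ, k < 8 ∧ x = st1 (s.1 + ((k + 1 : ℕ) : ℤ)) ∧
      dg (codL s.2.2) (k + 1) ≠ 0 := ⟨k, hk, hx, hd⟩
  unfold stepE
  rw [dif_pos h]
  have h2 := hx.symm.trans h.choose_spec.2.1
  rw [st1_inj] at h2
  have h3 : h.choose = k := by omega
  rw [h3]

lemma stepE_not {x : Site 1} {s : ES}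
    (h : ¬ ∃ k : ℕ, k < 8 ∧ x = st1 (s.1 + ((k + 1 : ℕ) : ℤ)) ∧ dg (codL s.2.2) (k + 1) ≠ 0) :
    stepE x s = s := by
  unfold stepE
  rw [dif_neg h]

/-- the state after reading a word backwards -/
noncomputable def es : List (Site 1) → ES
  | [] => (-5, -4, 0)
  | x :: w => stepE x (es w)

/-- the invariant -/
def InvE (a : Dr) (s : ES) : Prop := s.2.2 < 2048 ∧ Val a (codL s.2.2) s.1 s.2.1

lemma codL_zero : codL 0 = 131072 := by decide +kernel

lemma dg_zero {m : ℕ} (h : dg 131072 m ≠ 0) : m = 5 := by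
  by_contra hm
  apply h
  rcases Nat.lt_or_ge m 6 with h1 | h1
  · interval_cases m <;> first | rfl | omega
  · have h2 : (131072 : ℕ) < 8 ^ m := by
      calc (131072 : ℕ) < 8 ^ 6 := by norm_num
        _ ≤ 8 ^ m := Nat.pow_le_pow_right (by norm_num) h1
    rw [dg_eq, Nat.div_eq_of_lt h2]

lemma inv_es (w : List (Site 1)) : InvE (dr w) (es w) := by
  induction w with
  | nil =>
    refine ⟨by norm_num [es], ?_⟩
    change Val (dr []) (codL 0) (-5) (-4)
    rw [codL_zero]
    intro m hm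
    have hm5 := dg_zero hm
    subst hm5
    have h1 : dg 131072 5 = 4 := rfl
    rw [h1]
    have h3 : (-5 : ℤ) + ((5 : ℕ) : ℤ) = 0 := by norm_num
    have h2 : (-4 : ℤ) + ((4 : ℕ) : ℤ) = 0 := by norm_num
    rw [h2, h3]
    simp [dr]
  | cons x w ih =>
    obtain ⟨hi, hv⟩ := ih
    change InvE (upd {x} (dr w)) (stepE x (es w))
    by_cases h : ∃ k : ℕ, k < 8 ∧ x = st1 ((es w).1 + ((k + 1 : ℕ) : ℤ)) ∧
        dg (codL (es w).2.2) (k + 1) ≠ 0
    · obtain ⟨k, hk, hx, hd⟩ := h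
      rw [stepE_of hk hx hd]
      obtain ⟨c1, c2, c3⟩ := chkL_spec hi
      obtain ⟨c4, c5, c6⟩ := c2 k hk hd
      refine ⟨tL_lt _ _, ?_⟩
      exact hv.step (S := {x}) (j := k + 1) (by rw [Set.mem_singleton_iff, hx]) c6
    · rw [stepE_not h]
      exact ⟨hi, hv.mono (le_upd _ _)⟩

/-- the potential of a state -/
noncomputable def pot (s : ES) : ℝ := s.2.1 + (fL s.2.2 : ℝ) / 100000

lemma pot_stepK {s : ES} (hi : s.2.2 < 2048) {k : ℕ} (hk : k < 8)
    (hd : dg (codL s.2.2) (k + 1) ≠ 0) : pot (stepK s k) - pot s = (vL s.2.2 k : ℝ) / 100000 := by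
  obtain ⟨c1, c2, c3⟩ := chkL_spec hi
  obtain ⟨c4, c5, c6⟩ := c2 k hk hd
  have h1 : vL s.2.2 k = 100000 * gL s.2.2 k + fL (tL s.2.2 k) - fL s.2.2 := by
    unfold vL
    simp only [cond_eq, beq_iff]
    rw [if_neg hd]
    rfl
  rw [h1, Nat.cast_sub c4]
  unfold pot stepK
  push_cast
  ring

lemma pot_stepE_nonneg {s : ES} (hi : s.2.2 < 2048) (x : Site 1) :
    0 ≤ pot (stepE x s) - pot s := by
  by_cases h : ∃ k : ℕ, k < 8 ∧ x = st1 (s.1 + ((k + 1 : ℕ) : ℤ)) ∧ dg (codL s.2.2) (k + 1) ≠ 0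
  · obtain ⟨k, hk, hx, hd⟩ := h
    rw [stepE_of hk hx hd, pot_stepK hi hk hd]
    positivity
  · rw [stepE_not h, sub_self]

lemma st1_mem_box {R : ℕ} {z : ℤ} (h : |z| ≤ R) : st1 z ∈ box 1 R := by
  rw [mem_box]
  intro i
  exact h

/-- the drift of the potential -/
lemma pot_drift {s : ES} (hi : s.2.2 < 2048) {R : ℕ} (hR : |s.1| + 8 ≤ R) :
    (1.915 : ℝ) ≤ ∑ x ∈ box 1 R, (pot (stepE x s) - pot s) := by
  classical
  obtain ⟨c1, c2, c3⟩ := chkL_spec hi
  set A : Finset ℕ := (Finset.range 8).filter fun k => dg (codL s.2.2) (k + 1) ≠ 0 with hA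
  set f : ℕ → Site 1 := fun k => st1 (s.1 + ((k + 1 : ℕ) : ℤ)) with hf
  have hinj : Set.InjOn f A := by
    intro k _ k' _ hkk
    rw [hf] at hkk
    simp only [st1_inj] at hkk
    omega
  have hsub : A.image f ⊆ box 1 R := by
    intro x hx
    rw [Finset.mem_image] at hx
    obtain ⟨k, hk, rfl⟩ := hx
    rw [hA, Finset.mem_filter, Finset.mem_range] at hk
    refine st1_mem_box ?_
    have h1 := abs_add_le s.1 ((k + 1 : ℕ) : ℤ)
    have h2 : |((k + 1 : ℕ) : ℤ)| ≤ 8 := by
      rw [abs_of_nonneg (by positivity)]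
      have := hk.1
      omega
    linarith
  have h1 : ∑ x ∈ A.image f, (pot (stepE x s) - pot s) ≤
      ∑ x ∈ box 1 R, (pot (stepE x s) - pot s) :=
    Finset.sum_le_sum_of_subset_of_nonneg hsub fun x _ _ => pot_stepE_nonneg hi x
  refine le_trans ?_ h1
  rw [Finset.sum_image hinj]
  have h2 : ∀ k ∈ A, pot (stepE (f k) s) - pot s = (vL s.2.2 k : ℝ) / 100000 := by
    intro k hk
    rw [hA, Finset.mem_filter, Finset.mem_range] at hk
    rw [stepE_of hk.1 rfl hk.2, pot_stepK hi hk.1 hk.2]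
  rw [Finset.sum_congr rfl h2, ← Finset.sum_div]
  have h3 : ∑ k ∈ A, (vL s.2.2 k : ℝ) = ∑ k ∈ Finset.range 8, (vL s.2.2 k : ℝ) := by
    rw [hA, Finset.sum_filter]
    refine Finset.sum_congr rfl fun k _ => ?_
    by_cases hd : dg (codL s.2.2) (k + 1) ≠ 0
    · rw [if_pos hd]
    · rw [if_neg hd]
      rw [not_not] at hd
      unfold vL
      simp only [cond_eq, beq_iff]
      rw [if_pos hd]
      simp
  rw [h3]
  have h4 : ((191500 : ℕ) : ℝ) ≤ ((∑ k ∈ Finset.range 8, vL s.2.2 k : ℕ) : ℝ) := by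
    exact_mod_cast c3
  push_cast at h4
  linarith

/-- the position moves slowly -/
lemma pos_drift {s : ES} (hi : s.2.2 < 2048) (R : ℕ) :
    ∑ x ∈ box 1 R, (|((stepE x s).1 : ℝ)| - |(s.1 : ℝ)|) ≤ 8 := by
  classical
  obtain ⟨c1, c2, c3⟩ := chkL_spec hi
  set f : ℕ → Site 1 := fun k => st1 (s.1 + ((k + 1 : ℕ) : ℤ)) with hf
  set A : Finset (Site 1) := (Finset.range 8).image f with hA
  have h1 : ∀ x : Site 1, |((stepE x s).1 : ℝ)| - |(s.1 : ℝ)| ≤ if x ∈ A then 1 else 0 := by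
    intro x
    by_cases h : ∃ k : ℕ, k < 8 ∧ x = st1 (s.1 + ((k + 1 : ℕ) : ℤ)) ∧
        dg (codL s.2.2) (k + 1) ≠ 0
    · obtain ⟨k, hk, hx, hd⟩ := h
      have hxA : x ∈ A := by
        rw [hA, Finset.mem_image]
        exact ⟨k, Finset.mem_range.2 hk, hx.symm⟩
      rw [if_pos hxA, stepE_of hk hx hd]
      have h5 := (c2 k hk hd).2.1
      have h6 : |((stepK s k).1 : ℤ)| ≤ |s.1| + 1 := by
        unfold stepK
        simp only
        have h7 := abs_add_le s.1 ((sL s.2.2 k : ℤ) - 1)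
        have h8 : |(sL s.2.2 k : ℤ) - 1| ≤ 1 := by
          rw [abs_le]; constructor <;> omega
        have h9 : s.1 + (sL s.2.2 k : ℤ) - 1 = s.1 + ((sL s.2.2 k : ℤ) - 1) := by ring
        rw [h9]
        linarith
      have h10 : (|((stepK s k).1 : ℤ)| : ℝ) ≤ |(s.1 : ℝ)| + 1 := by exact_mod_cast h6
      linarith
    · rw [stepE_not h, sub_self]
      split_ifs <;> norm_num
  refine (Finset.sum_le_sum fun x _ => h1 x).trans ?_
  rw [← Finset.sum_filter, Finset.sum_const, nsmul_eq_mul, mul_one]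
  have h2 : ((box 1 R).filter fun x => x ∈ A).card ≤ A.card :=
    Finset.card_le_card fun x hx => (Finset.mem_filter.1 hx).2
  have h3 : A.card ≤ 8 := by
    rw [hA]
    exact Finset.card_image_le.trans (by simp)
  exact_mod_cast h2.trans h3

/-- the mean position after `J` letters -/
lemma W_pos_le (R J : ℕ) :
    W R J (fun w => |((es w).1 : ℝ)|) ≤ 5 + 8 * (J / (box 1 R).card) := by
  have hB : (0 : ℝ) < (box 1 R).card := by exact_mod_cast card_box_pos (d := 1) R
  induction J with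
  | zero =>
    rw [W_zero]
    change |(((-5 : ℤ)) : ℝ)| ≤ _
    norm_num
  | succ J ih =>
    have h1 := W_succ_sub R J (fun w => |((es w).1 : ℝ)|)
    have h2 : W R J (fun w => ∑ x ∈ box 1 R, (|((es (x :: w)).1 : ℝ)| - |((es w).1 : ℝ)|)) ≤ 8 := by
      rw [← W_const (d := 1) R J 8]
      exact W_mono R J fun w => pos_drift (inv_es w).1 R
    have h3 := mul_le_mul_of_nonneg_left h2 (inv_nonneg.2 hB.le)
    push_cast
    have h4 : 5 + 8 * (((J : ℝ) + 1) / (box 1 R).card) =
        5 + 8 * (J / (box 1 R).card) + ((box 1 R).card : ℝ)⁻¹ * 8 := by ring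
    rw [h4]
    linarith

/-- the mean potential after `J` letters -/
lemma W_pot_ge {R : ℕ} (hR : 0 < R) (J : ℕ) :
    -4 + 1.915 * (J / (box 1 R).card) * (1 - (13 + 8 * (J / (box 1 R).card)) / R) ≤
      W R J (fun w => pot (es w)) := by
  have hB : (0 : ℝ) < (box 1 R).card := by exact_mod_cast card_box_pos (d := 1) R
  have hR' : (0 : ℝ) < R := by exact_mod_cast hR
  set m : ℝ := ((box 1 R).card : ℝ) with hm
  have h1 : ∀ J : ℕ, W R J (fun w => pot (es w)) + 1.915 / m * (1 - (13 + 8 * (J / m)) / R) ≤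
      W R (J + 1) (fun w => pot (es w)) := by
    intro J
    have h2 := W_succ_sub R J (fun w => pot (es w))
    have h3 : 1.915 * (1 - (13 + 8 * (J / m)) / R) ≤
        W R J (fun w => ∑ x ∈ box 1 R, (pot (es (x :: w)) - pot (es w))) := by
      have h4 : (fun w => 1.915 * (1 - (|((es w).1 : ℝ)| + 8) / R)) ≤
          (fun w => ∑ x ∈ box 1 R, (pot (es (x :: w)) - pot (es w))) := by
        intro w
        obtain ⟨hi, -⟩ := inv_es w
        by_cases hw : |(es w).1| + 8 ≤ R
        · have h5 := pot_drift hi hw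
          refine le_trans ?_ h5
          have h6 : (0 : ℝ) ≤ (|((es w).1 : ℝ)| + 8) / R := by positivity
          linarith
        · have h5 : (0 : ℝ) ≤ ∑ x ∈ box 1 R, (pot (es (x :: w)) - pot (es w)) :=
            Finset.sum_nonneg fun x _ => pot_stepE_nonneg hi x
          refine le_trans ?_ h5
          have h6 : (1 : ℝ) ≤ (|((es w).1 : ℝ)| + 8) / R := by
            rw [le_div_iff₀ hR', one_mul]
            have h7 : (R : ℤ) ≤ |(es w).1| + 8 := (not_le.1 hw).le
            exact_mod_cast h7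
          linarith
      have h5 := W_mono R J h4
      refine le_trans ?_ h5
      have h6 : (fun w => 1.915 * (1 - (|((es w).1 : ℝ)| + 8) / R)) =
          (fun _ => 1.915 * (1 - 8 / R) : List (Site 1) → ℝ) -
            (1.915 / R : ℝ) • (fun w => |((es w).1 : ℝ)|) := by
        ext w
        simp only [Pi.smul_apply, Pi.sub_apply, smul_eq_mul]
        ring
      rw [h6, map_sub, W_const, map_smul, smul_eq_mul]
      have h7 := W_pos_le R J
      have h8 := mul_le_mul_of_nonneg_left h7 (show (0 : ℝ) ≤ 1.915 / R by positivity)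
      have h9 : 1.915 * (1 - (13 + 8 * (J / m)) / R) =
          1.915 * (1 - 8 / R) - 1.915 / R * (5 + 8 * (J / m)) := by ring
      rw [h9]
      linarith
    have h4 := mul_le_mul_of_nonneg_left h3 (inv_nonneg.2 hB.le)
    have h5 : (m : ℝ)⁻¹ * (1.915 * (1 - (13 + 8 * (J / m)) / R)) =
        1.915 / m * (1 - (13 + 8 * (J / m)) / R) := by ring
    rw [h5] at h4
    linarith
  induction J with
  | zero =>
    rw [W_zero]
    simp [es, pot]
  | succ J ih =>
    refine le_trans ?_ (h1 J)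
    push_cast
    have h3 : 1.915 * (((J : ℝ) + 1) / m) * (1 - (13 + 8 * (((J : ℝ) + 1) / m)) / R) ≤
        1.915 * (J / m) * (1 - (13 + 8 * (J / m)) / R) +
          1.915 / m * (1 - (13 + 8 * (J / m)) / R) := by
      have h4 : 1.915 * (J / m) * (1 - (13 + 8 * (J / m)) / R) +
          1.915 / m * (1 - (13 + 8 * (J / m)) / R) =
          1.915 * (((J : ℝ) + 1) / m) * (1 - (13 + 8 * (J / m)) / R) := by ring
      rw [h4]
      refine mul_le_mul_of_nonneg_left ?_ (by positivity)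
      have h5 : (13 + 8 * ((J : ℝ) / m)) / R ≤ (13 + 8 * (((J : ℝ) + 1) / m)) / R := by
        apply div_le_div_of_nonneg_right _ hR'.le
        have : (J : ℝ) / m ≤ ((J : ℝ) + 1) / m := div_le_div_of_nonneg_right (by linarith) hB.le
        linarith
      linarith
    linarith

/-- the picked position -/
noncomputable def pk (w : List (Site 1)) : ℕ := (chkL_spec (inv_es w).1).1.choose

lemma pk_spec (w : List (Site 1)) : pk w < 8 ∧ dg (codL (es w).2.2) (pk w + 1) ≠ 0 :=
  (chkL_spec (inv_es w).1).1.choose_spec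

/-- the level of the exploration -/
noncomputable def kA (w : List (Site 1)) : ℤ := (es w).2.1 + 1

/-- the site picked by the exploration -/
noncomputable def yA (w : List (Site 1)) : ℤ := (es w).1 + ((pk w + 1 : ℕ) : ℤ)

lemma kA_le (w : List (Site 1)) (g : Conf 1) : kA w + g (st1 (yA w)) ≤ act w g 0 := by
  obtain ⟨h1, h2⟩ := pk_spec w
  have h3 := (inv_es w).2 (pk w + 1) h2
  have h4 := dr_le w g h3
  unfold kA yA
  omega

/-- the mean of the level -/
lemma W_kA_ge {R : ℕ} (hR : 0 < R) (J : ℕ) :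
    -6 + 1.915 * (J / (box 1 R).card) * (1 - (13 + 8 * (J / (box 1 R).card)) / R) ≤
      W R J (fun w => (kA w : ℝ)) := by
  have h1 := W_pot_ge hR J
  have h2 : (fun w => pot (es w)) ≤ (fun w => (kA w : ℝ)) + (fun _ => 2 : List (Site 1) → ℝ) := by
    intro w
    simp only [Pi.add_apply]
    unfold pot kA
    have h3 : (fL (es w).2.2 : ℝ) ≤ 262144 := by exact_mod_cast (fL_lt _).le
    push_cast
    linarith
  have h3 := W_mono R J h2
  rw [map_add, W_const] at h3
  linarith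

end Pool.Agent.Lib.MP_67d80e_pr_d1
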