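import Pool.Agent.Lib.MP_67d80e_pr_d1.Expl1

set_option autoImplicit false

open scoped BigOperators
open Filter MeasureTheory
open Pool.Agent.Lib.MP_67d80e_pr

namespace Pool.Agent.Lib.MP_67d80e_pr_d1

/-! ### the rightmost path -/

open Classical in
/-- the rightmost path -/
noncomputable def pb : List (Site 1) → ℕ
  | [] => 0
  | x :: w => if x = st1 (pb w) then pb w + 1 else pb w

lemma pb_le (w : List (Site 1)) (g : Conf 1) : g (st1 (pb w)) ≤ act w g 0 := by
  induction w generalizing g with
  | nil => rw [act_nil]; exact le_rfl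
  | cons x w ih =>
    rw [act_cons]
    have h1 := ih (ring x g)
    simp only [pb]
    split_ifs with h
    · rw [← h, ring_self] at h1
      have h2 := add_le_newHeight g x 0
      rw [h, st1_add_e, ← h] at h2
      push_cast
      linarith
    · have h2 : g (st1 (pb w)) ≤ ring x g (st1 (pb w)) := by
        rw [ring_eq_ringSet]
        exact le_ringSet _ g _
      linarith

lemma pb_drift (w : List (Site 1)) (R : ℕ) :
    ∑ x ∈ box 1 R, ((pb (x :: w) : ℝ) - pb w) = if pb w ≤ R then 1 else 0 := by
  classical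
  have h1 : ∀ x : Site 1, ((pb (x :: w) : ℝ) - pb w) = if x = st1 (pb w) then 1 else 0 := by
    intro x
    simp only [pb]
    split_ifs with h
    · push_cast; ring
    · ring
  simp_rw [h1]
  rw [Finset.sum_ite_eq']
  have h2 : st1 (pb w) ∈ box 1 R ↔ pb w ≤ R := by
    rw [mem_box]
    constructor
    · intro h
      have := h 0
      rw [st1_apply, abs_of_nonneg (by positivity)] at this
      exact_mod_cast this
    · intro h i
      rw [st1_apply, abs_of_nonneg (by positivity)]
      exact_mod_cast h
  simp only [h2]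

lemma W_pb_le (R J : ℕ) : W R J (fun w => (pb w : ℝ)) ≤ J / (box 1 R).card := by
  have hB : (0 : ℝ) < (box 1 R).card := by exact_mod_cast card_box_pos (d := 1) R
  induction J with
  | zero => rw [W_zero]; simp [pb]
  | succ J ih =>
    have h1 := W_succ_sub R J (fun w => (pb w : ℝ))
    have h2 : W R J (fun w => ∑ x ∈ box 1 R, ((pb (x :: w) : ℝ) - pb w)) ≤ 1 := by
      rw [← W_const (d := 1) R J 1]
      refine W_mono R J fun w => ?_
      simp only [pb_drift]
      split_ifs <;> norm_num
    have h3 := mul_le_mul_of_nonneg_left h2 (inv_nonneg.2 hB.le)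
    push_cast
    have h4 : ((J : ℝ) + 1) / (box 1 R).card =
        J / (box 1 R).card + ((box 1 R).card : ℝ)⁻¹ * 1 := by ring
    rw [h4]
    linarith

lemma W_pb_ge {R : ℕ} (hR : 0 < R) (J : ℕ) :
    (J / (box 1 R).card) * (1 - (J / (box 1 R).card) / R) ≤ W R J (fun w => (pb w : ℝ)) := by
  have hB : (0 : ℝ) < (box 1 R).card := by exact_mod_cast card_box_pos (d := 1) R
  have hR' : (0 : ℝ) < R := by exact_mod_cast hR
  set m : ℝ := ((box 1 R).card : ℝ) with hm
  induction J with
  | zero => rw [W_zero]; simp [pb]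
  | succ J ih =>
    have h1 := W_succ_sub R J (fun w => (pb w : ℝ))
    have h2 : 1 - (J / m) / R ≤ W R J (fun w => ∑ x ∈ box 1 R, ((pb (x :: w) : ℝ) - pb w)) := by
      have h3 : ((fun _ => 1 : List (Site 1) → ℝ) - (R : ℝ)⁻¹ • (fun w => (pb w : ℝ))) ≤
          (fun w => ∑ x ∈ box 1 R, ((pb (x :: w) : ℝ) - pb w)) := by
        intro w
        simp only [pb_drift, Pi.sub_apply, Pi.smul_apply, smul_eq_mul]
        split_ifs with h
        · have : (0 : ℝ) ≤ (R : ℝ)⁻¹ * pb w := by positivity
          linarith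
        · have : (1 : ℝ) ≤ (R : ℝ)⁻¹ * pb w := by
            rw [inv_mul_eq_div, le_div_iff₀ hR', one_mul]
            exact_mod_cast (not_le.1 h).le
          linarith
      refine le_trans ?_ (W_mono R J h3)
      rw [map_sub, W_const, map_smul, smul_eq_mul]
      have h4 := mul_le_mul_of_nonneg_left (W_pb_le R J) (inv_nonneg.2 hR'.le)
      have h5 : (J / m) / R = (R : ℝ)⁻¹ * (J / m) := by ring
      rw [h5]
      linarith
    have h3 := mul_le_mul_of_nonneg_left h2 (inv_nonneg.2 hB.le)
    push_cast
    have h4 : (((J : ℝ) + 1) / m) * (1 - (((J : ℝ) + 1) / m) / R) ≤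
        (J / m) * (1 - (J / m) / R) + m⁻¹ * (1 - (J / m) / R) := by
      have h5 : (J / m) * (1 - (J / m) / R) + m⁻¹ * (1 - (J / m) / R) =
          (((J : ℝ) + 1) / m) * (1 - (J / m) / R) := by ring
      rw [h5]
      refine mul_le_mul_of_nonneg_left ?_ (by positivity)
      have h6 : ((J : ℝ) / m) / R ≤ (((J : ℝ) + 1) / m) / R := by
        apply div_le_div_of_nonneg_right _ hR'.le
        exact div_le_div_of_nonneg_right (by linarith) hB.le
      linarith
    linarith

/-! ### reflection -/

/-- the reflected word -/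
def rf (w : List (Site 1)) : List (Site 1) := w.map fun x => -x

lemma neg_mem_box {R : ℕ} {x : Site 1} : -x ∈ box 1 R ↔ x ∈ box 1 R := by
  rw [mem_box, mem_box]
  refine forall_congr' fun i => ?_
  rw [Pi.neg_apply, abs_neg]

lemma W_rf (R J : ℕ) (Ψ : List (Site 1) → ℝ) : W R J (fun w => Ψ (rf w)) = W R J Ψ := by
  induction J generalizing Ψ with
  | zero => rfl
  | succ J ih =>
    rw [W_succ, W_succ]
    congr 1
    have h1 : ∀ x ∈ box 1 R, W R J (fun w => Ψ (rf (x :: w))) = W R J (fun w => Ψ (-x :: w)) := by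
      intro x _
      exact ih (fun w => Ψ (-x :: w))
    rw [Finset.sum_congr rfl h1]
    refine Finset.sum_nbij' (fun x => -x) (fun x => -x) (fun x hx => neg_mem_box.2 hx)
      (fun x hx => neg_mem_box.2 hx) (fun x _ => neg_neg x) (fun x _ => neg_neg x) fun x _ => rfl

/-- the reflected configuration -/
def rfC (g : Conf 1) : Conf 1 := fun z => g (-z)

lemma newHeight_rfC (g : Conf 1) (x : Site 1) : newHeight (rfC g) x = newHeight g (-x) := by
  have h1 := newHeight_signedPerm g 1 (fun _ => -1) x
  have h2 : ∀ z : Site 1, signedPerm 1 (fun _ => (-1 : ℤˣ)) z = -z := by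
    intro z
    ext i
    simp [signedPerm]
  simp only [h2] at h1
  exact h1

lemma ring_rfC (g : Conf 1) (x : Site 1) : ring (-x) (rfC g) = rfC (ring x g) := by
  ext y
  unfold rfC
  by_cases h : y = -x
  · subst h
    rw [ring_self, neg_neg, ring_self]
    have := newHeight_rfC g (-x)
    rw [neg_neg] at this
    exact this
  · rw [ring_of_ne h, ring_of_ne (fun h' => h (by rw [← h', neg_neg]))]

lemma act_rf (w : List (Site 1)) (g : Conf 1) : act (rf w) (rfC g) = rfC (act w g) := by
  induction w generalizing g with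
  | nil => rfl
  | cons x w ih =>
    change act (-x :: rf w) (rfC g) = _
    rw [act_cons, act_cons, ring_rfC, ih]

lemma kA_rf_le (w : List (Site 1)) (g : Conf 1) :
    kA (rf w) + g (st1 (-(yA (rf w)))) ≤ act w g 0 := by
  have h1 := kA_le (rf w) (rfC g)
  rw [act_rf] at h1
  unfold rfC at h1
  have h2 : -st1 (yA (rf w)) = st1 (-(yA (rf w))) := rfl
  rw [h2, neg_zero] at h1
  exact h1

end Pool.Agent.Lib.MP_67d80e_pr_d1
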