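import Pool.Agent.Lib.MP_67d80e_pr_d1.Mean
import Pool.Agent.Lib.MP_67d80e_pr_d1.Path

set_option autoImplicit false
set_option linter.unusedSectionVars false

open scoped BigOperators ENNReal NNReal
open Filter MeasureTheory Topology
open Pool.Agent.Lib.MP_67d80e_pr

namespace Pool.Agent.Lib.MP_67d80e_pr_d1

section
variable {μ : Measure (Conf 1)} {U : Ultrafilter ℕ} (hμ : IsLim 0 μ U)
  (k : List (Site 1) → ℤ) (y : List (Site 1) → ℤ)
  (hk : ∀ w (g : Conf 1), k w + g (st1 (y w)) ≤ act w g 0)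

/-- the positive part of the difference of two strategies -/
noncomputable def gap (k y : List (Site 1) → ℤ) (w : List (Site 1)) : Fn 1 :=
  fun g => max ((k w : ℝ) + g (st1 (y w)) - g (st1 (pb w))) 0

lemma gap_local (w : List (Site 1)) : IsLocal (gap k y w) :=
  ⟨{st1 (y w), st1 (pb w)}, fun g h hgh => by
    unfold gap
    rw [hgh (st1 (y w)) (by simp), hgh (st1 (pb w)) (by simp)]⟩

include hk in
lemma act_gap (w : List (Site 1)) (g : Conf 1) :
    (g (st1 (pb w)) : ℝ) + gap k y w g ≤ act w g 0 := by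
  have h3 : ((k w : ℤ) + g (st1 (y w)) : ℝ) ≤ act w g 0 := by exact_mod_cast hk w g
  have h4 : (g (st1 (pb w)) : ℝ) ≤ act w g 0 := by exact_mod_cast pb_le w g
  unfold gap
  rcases max_cases ((k w : ℝ) + g (st1 (y w)) - g (st1 (pb w))) 0 with ⟨h5, -⟩ | ⟨h5, -⟩
  · rw [h5]
    linarith
  · rw [h5]
    linarith

include hμ hk

/-- the growth inequality in the limit, truncated -/
lemma limit1_trunc (R I K : ℕ) :
    W R I (fun w => (pb w : ℝ) + ∫ g, min (gap k y w g) K ∂μ) ≤
      U1 * (I / (box 1 R).card) := by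
  obtain ⟨C, hC⟩ := ces_growth1 R I
  -- the inequality along the sequence
  have h1 : ∀ᶠ N in (U : Filter ℕ), W R I (fun w => (pb w : ℝ) +
      cesN 0 N (fun h => min (gap k y w (recenter h)) K)) ≤
      U1 * (I / (box 1 R).card) + C / (N + 1) := by
    have h2 : ∀ᶠ N in (U : Filter ℕ), 2 * R ≤ N ∧ 8 ≤ N :=
      hμ.le ((eventually_ge_atTop (2 * R)).and (eventually_ge_atTop 8))
    filter_upwards [h2] with N hN
    refine le_trans ?_ (hC N hN.1 hN.2)
    have h5 : (fun g => W R I (fun w => ((g (st1 (pb w)) : ℝ) - g 0) +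
        min (gap k y w (recenter g)) K) : Fn 1) ≤ (PB 1 R ^ I) (hgt 0) - hgt 0 := by
      intro g
      rw [Pi.sub_apply, PB_pow_apply]
      have h6 : W R I (fun w => hgt 0 (act w g)) - hgt 0 g =
          W R I ((fun w => hgt 0 (act w g)) - (fun _ => hgt 0 g)) := by
        rw [map_sub, W_const]
      rw [h6]
      refine W_mono R I fun w => ?_
      have h7 := act_gap k y hk w g
      have h8 : gap k y w (recenter g) = gap k y w g := by
        unfold gap recenter
        push_cast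
        congr 1
        ring
      have h9 := min_le_left (gap k y w g) (K : ℝ)
      simp only [Pi.sub_apply, hgt]
      rw [h8]
      linarith
    refine le_trans (le_of_eq ?_) (cesN_mono 0 N h5)
    rw [W_exchange]
    congr 1
    ext w
    have h6 : (fun g => ((g (st1 (pb w)) : ℝ) - g 0) + min (gap k y w (recenter g)) K : Fn 1) =
        (hgt (st1 (pb w)) - hgt 0) + (fun g => min (gap k y w (recenter g)) K) := rfl
    rw [h6, map_add]
    have h7 := ces_hgt_sub (N + 1) (0 : Fin 1) (JN_pos 1 N) (st1 (pb w))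
    unfold cesN
    rw [h7]
    rfl
  -- the limit
  have h2 : Tendsto (fun N => W R I (fun w => (pb w : ℝ) +
      cesN 0 N (fun h => min (gap k y w (recenter h)) K))) U
      (𝓝 (W R I (fun w => (pb w : ℝ) + ∫ g, min (gap k y w g) K ∂μ))) := by
    refine W_tendsto R I fun w => ?_
    refine Tendsto.const_add _ ?_
    refine hμ.lim (fun g => min (gap k y w g) K) ?_ ?_
    · obtain ⟨S, hS⟩ := gap_local k y w
      exact ⟨S, fun g h hgh => by simp only; rw [hS g h hgh]⟩
    · refine ⟨K, fun h => ?_⟩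
      rw [abs_of_nonneg (le_min (le_max_right _ _) (Nat.cast_nonneg K))]
      exact min_le_right _ _
  have h3 : Tendsto (fun N : ℕ => U1 * ((I : ℝ) / (box 1 R).card) + C / (N + 1)) U
      (𝓝 (U1 * (I / (box 1 R).card) + 0)) := by
    refine Tendsto.const_add _ ?_
    refine Tendsto.mono_left ?_ hμ.le
    have h4 : Tendsto (fun N : ℕ => C * (1 / ((N : ℝ) + 1))) atTop (𝓝 (C * 0)) :=
      tendsto_one_div_add_atTop_nhds_zero_nat.const_mul _
    rw [mul_zero] at h4
    refine h4.congr fun N => ?_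
    rw [mul_one_div]
  have h4 := le_of_tendsto_of_tendsto h2 h3 h1
  rwa [add_zero] at h4

/-- the growth inequality in the limit -/
lemma limit1 (R I : ℕ) :
    W R I (fun w => (k w : ℝ)) + (∫ g, (g (e 0) : ℝ) ∂μ) * W R I (fun w => (y w : ℝ)) +
      (1 - ∫ g, (g (e 0) : ℝ) ∂μ) * W R I (fun w => (pb w : ℝ)) ≤
      U1 * (I / (box 1 R).card) := by
  have := hμ.prob
  have hint : ∀ w, Integrable
      (fun g : Conf 1 => (k w : ℝ) + g (st1 (y w)) - g (st1 (pb w))) μ :=
    fun w => ((integrable_const _).add (integrable_hgt hμ _)).sub (integrable_hgt hμ _)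
  have h1 : Tendsto (fun K : ℕ => W R I (fun w => (pb w : ℝ) +
      ∫ g, min (gap k y w g) K ∂μ)) atTop
      (𝓝 (W R I (fun w => (pb w : ℝ) + ∫ g, gap k y w g ∂μ))) := by
    refine W_tendsto R I fun w => ?_
    refine Tendsto.const_add _ ?_
    have hg : Integrable (gap k y w) μ := (hint w).pos_part
    refine tendsto_integral_of_dominated_convergence (gap k y w) (fun K => ?_) hg (fun K => ?_) ?_
    · exact ((gap_local k y w).measurable.min measurable_const).aestronglyMeasurable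
    · refine Filter.Eventually.of_forall fun g => ?_
      have h0 : 0 ≤ gap k y w g := le_max_right _ _
      rw [Real.norm_eq_abs, abs_of_nonneg (le_min h0 (Nat.cast_nonneg K))]
      exact min_le_left _ _
    · refine Filter.Eventually.of_forall fun g => ?_
      obtain ⟨K0, hK0⟩ := exists_nat_ge (gap k y w g)
      refine tendsto_const_nhds.congr' ?_
      filter_upwards [eventually_ge_atTop K0] with K hK
      rw [min_eq_left]
      exact hK0.trans (by exact_mod_cast hK)
  have h2 := le_of_tendsto h1 (Filter.Eventually.of_forall fun K => limit1_trunc hμ k y hk R I K)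
  refine le_trans ?_ h2
  have h3 : W R I (fun w => (k w : ℝ)) + (∫ g, (g (e 0) : ℝ) ∂μ) * W R I (fun w => (y w : ℝ)) +
      (1 - ∫ g, (g (e 0) : ℝ) ∂μ) * W R I (fun w => (pb w : ℝ)) =
      W R I ((fun w => (k w : ℝ)) + (∫ g, (g (e 0) : ℝ) ∂μ) • (fun w => (y w : ℝ)) +
        (1 - ∫ g, (g (e 0) : ℝ) ∂μ) • (fun w => (pb w : ℝ))) := by
    rw [map_add, map_add, map_smul, map_smul, smul_eq_mul, smul_eq_mul]
  rw [h3]
  refine W_mono R I fun w => ?_
  have h4 : ∫ g, ((k w : ℝ) + g (st1 (y w)) - g (st1 (pb w))) ∂μ ≤ ∫ g, gap k y w g ∂μ :=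
    integral_mono (hint w) (hint w).pos_part fun g => le_max_left _ _
  have e1 : Integrable (fun g : Conf 1 => (k w : ℝ) + g (st1 (y w))) μ :=
    (integrable_const _).add (integrable_hgt hμ _)
  have h5 : ∫ g, ((k w : ℝ) + g (st1 (y w)) - g (st1 (pb w))) ∂μ =
      k w + ∫ g, (g (st1 (y w)) : ℝ) ∂μ - ∫ g, (g (st1 (pb w)) : ℝ) ∂μ := by
    rw [integral_sub e1 (integrable_hgt hμ _),
      integral_add (integrable_const _) (integrable_hgt hμ _)]
    simp
  rw [h5, integral_hgt hμ (st1 (y w)), integral_hgt hμ (st1 (pb w)), st1_apply, st1_apply] at h4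
  simp only [Pi.add_apply, Pi.smul_apply, smul_eq_mul]
  push_cast at h4 ⊢
  linarith

end

/-- the slope is positive -/
theorem slope1_pos {μ : Measure (Conf 1)} {U : Ultrafilter ℕ} (hμ : IsLim 0 μ U) :
    0 < ∫ g, (g (e 0) : ℝ) ∂μ := by
  by_contra hcon
  rw [not_lt] at hcon
  set σ : ℝ := ∫ g, (g (e 0) : ℝ) ∂μ with hσ
  obtain ⟨R, h4⟩ : ∃ R : ℕ, (R : ℝ) = 1000000000 := ⟨1000000000, by norm_num⟩
  have hR0 : 0 < R := by
    have : (0 : ℝ) < R := by rw [h4]; norm_num
    exact_mod_cast this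
  have hm0 : (0 : ℝ) < (box 1 R).card := by exact_mod_cast card_box_pos (d := 1) R
  obtain ⟨I, hI⟩ : ∃ I : ℕ, (I : ℝ) = 3000 * (box 1 R).card :=
    ⟨3000 * (box 1 R).card, by push_cast; ring⟩
  have ht : (I : ℝ) / (box 1 R).card = 3000 := by
    rw [hI]
    field_simp
  have h1 := limit1 hμ kA yA kA_le R I
  have h2 := limit1 hμ (fun w => kA (rf w)) (fun w => -(yA (rf w))) kA_rf_le R I
  have e1 : W R I (fun w => ((kA (rf w) : ℤ) : ℝ)) = W R I (fun w => (kA w : ℝ)) :=
    W_rf R I (fun w => (kA w : ℝ))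
  have e2 : W R I (fun w => ((-(yA (rf w)) : ℤ) : ℝ)) = - W R I (fun w => (yA w : ℝ)) := by
    have h3 := W_rf R I (fun w => -(yA w : ℝ))
    have h4 : (fun w => -(yA w : ℝ)) = -(fun w => (yA w : ℝ) : List (Site 1) → ℝ) := rfl
    have h5 : (fun w => ((-(yA (rf w)) : ℤ) : ℝ)) = fun w => -(yA (rf w) : ℝ) := by
      ext w; push_cast; ring
    rw [h5, h3, h4, map_neg]
  rw [e1, e2] at h2
  rw [← hσ, ht] at h1 h2
  have hA := W_kA_ge hR0 I
  have hB := W_pb_ge hR0 I
  rw [ht] at hA hB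
  have hB0 : 0 ≤ W R I (fun w => (pb w : ℝ)) := W_nonneg R I fun w => Nat.cast_nonneg _
  have h3 : W R I (fun w => (pb w : ℝ)) ≤ (1 - σ) * W R I (fun w => (pb w : ℝ)) := by
    nlinarith
  rw [h4] at hA hB
  unfold U1 at h1 h2
  norm_num at hA hB
  linarith

/-- a tilted stationary measure in dimension one -/
theorem exists_tilted1 : ∃ (μ : Measure (Conf 1)) (U : Ultrafilter ℕ),
    IsLim 0 μ U ∧ 0 < ∫ g, (g (e 0) : ℝ) ∂μ := by
  obtain ⟨μ, U, h1, h2, h3⟩ := exists_limit (l := 1) one_pos (0 : Fin 1)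
  have hμ : IsLim 0 μ U := ⟨h1, h2, h3⟩
  exact ⟨μ, U, hμ, slope1_pos hμ⟩

end Pool.Agent.Lib.MP_67d80e_pr_d1
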