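import Pool.Agent.Lib.MP_67d80e_pr.Decor
import Pool.Agent.Lib.MP_67d80e_pr.Stat
import Pool.Agent.Lib.MP_67d80e_pr.Sym
import Pool.Agent.Lib.MP_67d80e_pr_d1.Slope1

set_option autoImplicit false

open scoped BigOperators
open Filter MeasureTheory Topology
open Pool.Agent.Lib.MP_67d80e_pr

namespace Pool.Agent.Lib.MP_67d80e_pr_d1

lemma genInv1 {μ : Measure (Conf 1)} {U : Ultrafilter ℕ} (hμ : IsLim 0 μ U) : GenInv μ :=
  fun _ _ _ hG hS hGb hv => gen_zero hμ hG hS hGb hv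

/-- the tilted stationary distribution on the line -/
theorem tilted_stationary1 : ∃ μ : Measure (Conf 1),
    IsStationary μ ∧ (∀ x, Integrable (fun g : Conf 1 => (g x : ℝ)) μ) ∧
      (∀ y, μ.map (fun g x => g (x + y) - g y) = μ) ∧
      0 < ∫ g, (g (e 0) : ℝ) ∂μ := by
  obtain ⟨μ, U, hμ, hs⟩ := exists_tilted1
  refine ⟨μ, isStationary_of_genInv hμ.prob (genInv1 hμ) le_rfl (ae_zero hμ),
    integrable_hgt hμ, fun y => ?_, hs⟩
  have h1 := map_trans hμ y
  have h2 : (fun g : Conf 1 => recenter (Pool.Agent.Lib.MP_67d80e_pr.trans y g)) = fun g x => g (x + y) - g y := by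
    funext g x
    simp [recenter, Pool.Agent.Lib.MP_67d80e_pr.trans]
  rwa [h2] at h1

/-- a symmetric stationary distribution on the line whose gradients do not decorrelate -/
theorem sym_not_decorrelated1 : ∃ μ : Measure (Conf 1), IsStationary μ ∧
    (∀ x, Integrable (fun g : Conf 1 => (g x : ℝ)) μ) ∧
    (∀ y, μ.map (fun g x => g (x + y) - g y) = μ) ∧
    (∀ π ε, μ.map (fun g x => g (signedPerm π ε x)) = μ) ∧
    ∃ φ ψ : (Fin 1 → ℤ) → ℝ, IsBdd φ ∧ IsBdd ψ ∧ ∃ ε : ℝ, 0 < ε ∧ ∃ x y : ℕ → Site 1,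
      Tendsto (fun n => ‖x n - y n‖) atTop atTop ∧
        ∀ n, ε ≤ |gradCov μ φ ψ (x n) (y n)| := by
  obtain ⟨μ, U, hμ, hs⟩ := exists_tilted1
  have hp := hμ.prob
  obtain ⟨φ, hφ, ε, hε, x, y, hxy, hcov⟩ :=
    decor_fails (map_trans hμ) (integrable_hgt hμ) (ae_zero hμ) 0 hs
  refine ⟨symM μ, isStationary_of_genInv prob_symM (genInv_symM (genInv1 hμ)) le_rfl
    (ae_zero_symM (ae_zero hμ)), integrable_hgt_symM (integrable_hgt hμ), fun y => ?_,
    fun π ε => map_sact_symM (π, ε), φ, φ, hφ, hφ, ε, hε, x, y, hxy, hcov⟩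
  have h1 := map_trans_symM (map_trans hμ) y
  have h2 : (fun g : Conf 1 => recenter (Pool.Agent.Lib.MP_67d80e_pr.trans y g)) = fun g x => g (x + y) - g y := by
    funext g x
    simp [recenter, Pool.Agent.Lib.MP_67d80e_pr.trans]
  rwa [h2] at h1

end Pool.Agent.Lib.MP_67d80e_pr_d1
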