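import Pool.Agent.Lib.MP_67d80e_pr_d1.Drift

set_option autoImplicit false

open scoped BigOperators ENNReal
open Filter MeasureTheory
open Pool.Agent.Lib.MP_67d80e_pr

namespace Pool.Agent.Lib.MP_67d80e_pr_d1

/-- the exponential of an integer valued functional -/
noncomputable def expo (F : Conf 1 → ℤ) : Fn 1 := fun h => (7 / 5 : ℝ) ^ (F h)

section
variable {N : ℕ} [NeZero N]

lemma PT_apply (G : Fn 1) : PT 1 N G =
    ((nT 1 N : ℝ)⁻¹) • ∑ α : Fin 1 → ZMod N, (fun h => G (ringSet (TS N α) h) : Fn 1) := by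
  ext h
  rw [PT, avgOp_apply]
  simp only [Pi.smul_apply, Finset.sum_apply, smul_eq_mul]
  rfl

/-- the exponential bound -/
theorem exp_bound (hN : 9 ≤ N) (j : ℕ) (a : Dr) (F : Conf 1 → ℤ) (hF : Dom a F) :
    ENNReal.ofReal ((PT 1 N ^ j) (expo F) (tilt 0)) ≤
      ENNReal.ofReal ((1 + 49 / 50 / nT 1 N) ^ j) * Psi a := by
  have hT : (0 : ℝ) < nT 1 N := by exact_mod_cast nT_pos (d := 1) N
  induction j generalizing a F with
  | zero =>
    rw [pow_zero, pow_zero, ENNReal.ofReal_one, one_mul, Module.End.one_apply]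
    obtain ⟨z, n, h1, h2⟩ := hF (tilt 0)
    have h3 : a z ≠ ⊥ := by
      intro h0
      rw [h0] at h1
      exact absurd h1 (by simp)
    obtain ⟨k, hk⟩ := WithBot.ne_bot_iff_exists.1 h3
    have hk := hk.symm
    have h4 : n ≤ k := by
      rw [hk] at h1
      exact_mod_cast h1
    have h5 : expo F (tilt 0) ≤ wt a z := by
      refine le_trans ?_ (wq_le_wt a z)
      rw [wq_eq hk]
      unfold expo
      refine zpow_le_zpow_right₀ (by norm_num) ?_
      have h6 : (tilt 0 : Conf 1) (st1 z) = z := rfl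
      rw [h6] at h2
      linarith
    refine (ENNReal.ofReal_le_ofReal h5).trans ?_
    exact ENNReal.le_tsum z
  | succ j ih =>
    rw [pow_succ, Module.End.mul_apply, PT_apply, map_smul, map_sum, Pi.smul_apply,
      Finset.sum_apply, smul_eq_mul, ENNReal.ofReal_mul (by positivity)]
    have hnn : ∀ α : Fin 1 → ZMod N,
        0 ≤ (PT 1 N ^ j) (fun h => expo F (ringSet (TS N α) h)) (tilt 0) := by
      intro α
      have h1 : (fun _ => 0 : Fn 1) ≤ (fun h => expo F (ringSet (TS N α) h)) := by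
        intro h
        unfold expo
        positivity
      have h2 := ((isMarkov_PT N).pow j).mono h1 (tilt 0)
      rwa [((isMarkov_PT N).pow j).const] at h2
    rw [ENNReal.ofReal_sum_of_nonneg fun α _ => hnn α]
    have h1 : ∀ α : Fin 1 → ZMod N,
        ENNReal.ofReal ((PT 1 N ^ j) (fun h => expo F (ringSet (TS N α) h)) (tilt 0)) ≤
          ENNReal.ofReal ((1 + 49 / 50 / nT 1 N) ^ j) * Psi (upd (TS N α) a) := fun α =>
      ih (upd (TS N α) a) (fun h => F (ringSet (TS N α) h)) (hF.ring _)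
    have h2 : ∑ α : Fin 1 → ZMod N,
        ENNReal.ofReal ((PT 1 N ^ j) (fun h => expo F (ringSet (TS N α) h)) (tilt 0)) ≤
        ENNReal.ofReal ((1 + 49 / 50 / nT 1 N) ^ j) *
          (ENNReal.ofReal ((nT 1 N : ℝ) + 49 / 50) * Psi a) := by
      refine (Finset.sum_le_sum fun α _ => h1 α).trans ?_
      rw [← Finset.mul_sum]
      gcongr
      exact Psi_sum_le hN a
    refine (mul_le_mul_right h2 _).trans (le_of_eq ?_)
    rw [← mul_assoc, ← mul_assoc, ← ENNReal.ofReal_mul (by positivity),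
      ← ENNReal.ofReal_mul (by positivity)]
    congr 2
    rw [pow_succ]
    field_simp

/-- the logarithmic bound on the mean, given the exponential bound -/
lemma mean_le_log {Q : Module.End ℝ (Fn 1)} (hQ : IsMarkov Q) (h0 : Conf 1) (F : Conf 1 → ℤ)
    {K : ℝ} (hK0 : 0 < K) (hK : Q (expo F) h0 ≤ K) :
    Q (fun h => (F h : ℝ)) h0 ≤ Real.log K / Real.log (7 / 5) := by
  have hl : 0 < Real.log (7 / 5) := Real.log_pos (by norm_num)
  have h1 : Real.log (7 / 5) • (fun h => (F h : ℝ) : Fn 1) ≤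
      K⁻¹ • expo F + (fun _ => Real.log K - 1 : Fn 1) := by
    intro h
    simp only [Pi.smul_apply, Pi.add_apply, smul_eq_mul, expo]
    have h2 := Real.add_one_le_exp (Real.log (7 / 5) * F h - Real.log K)
    rw [Real.exp_sub, Real.exp_log hK0, ← Real.rpow_def_of_pos (by norm_num),
      Real.rpow_intCast] at h2
    have h3 : K⁻¹ * (7 / 5 : ℝ) ^ (F h) = (7 / 5 : ℝ) ^ (F h) / K := by ring
    rw [h3]
    linarith
  have h2 := hQ.mono h1 h0
  rw [map_smul, map_add, map_smul, hQ.const] at h2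
  simp only [Pi.smul_apply, Pi.add_apply, smul_eq_mul] at h2
  have h3 : K⁻¹ * Q (expo F) h0 ≤ 1 := by
    rw [inv_mul_le_iff₀ hK0]
    linarith
  rw [le_div_iff₀ hl]
  linarith

/-- the growth constant -/
noncomputable def U1 : ℝ := 5243 / 1800

lemma log_bound : (36 / 107 : ℝ) ≤ Real.log (7 / 5) := by
  rw [Real.le_log_iff_exp_le (by norm_num)]
  have h1 : Real.exp (36 / 107) ^ 107 ≤ (7 / 5 : ℝ) ^ 107 := by
    rw [← Real.exp_nat_mul]
    have h2 : ((107 : ℕ) : ℝ) * (36 / 107) = ((36 : ℕ) : ℝ) * 1 := by norm_num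
    rw [h2, Real.exp_nat_mul]
    have h3 : Real.exp 1 ^ 36 ≤ (2.7182818286 : ℝ) ^ 36 :=
      pow_le_pow_left₀ (Real.exp_pos 1).le Real.exp_one_lt_d9.le 36
    refine h3.trans ?_
    norm_num
  exact le_of_pow_le_pow_left₀ (by norm_num) (by norm_num) h1

/-- the constant of a word -/
noncomputable def cW (w : List (Site 1)) : ℝ :=
  Real.log ((Psi (dr w)).toReal + 1) / Real.log (7 / 5)

/-- the mean height of the origin -/
lemma mean_word_le (hN : 9 ≤ N) (j : ℕ) (w : List (Site 1)) :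
    (PT 1 N ^ j) (fun h => ((act w h 0 : ℤ) : ℝ)) (tilt 0) ≤ U1 * (j / nT 1 N) + cW w := by
  have hT : (0 : ℝ) < nT 1 N := by exact_mod_cast nT_pos (d := 1) N
  have hl : 0 < Real.log (7 / 5) := Real.log_pos (by norm_num)
  set c : ℝ := 1 + 49 / 50 / nT 1 N with hc
  have hc0 : 0 < c := by positivity
  have h1 := exp_bound hN j (dr w) (fun h => act w h 0) (dom_dr w)
  have hfin := Psi_dr_ne_top w
  set P : ℝ := (Psi (dr w)).toReal with hP
  have hP0 : 0 ≤ P := ENNReal.toReal_nonneg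
  rw [← ENNReal.ofReal_toReal hfin, ← ENNReal.ofReal_mul (by positivity),
    ENNReal.ofReal_le_ofReal_iff (by positivity), ← hP, ← hc] at h1
  have h2 : (PT 1 N ^ j) (expo fun h => act w h 0) (tilt 0) ≤ c ^ j * (P + 1) := by
    refine h1.trans (mul_le_mul_of_nonneg_left (by linarith) (by positivity))
  have h3 := mean_le_log ((isMarkov_PT N).pow j) (tilt 0) (fun h => act w h 0) (by positivity) h2
  refine h3.trans ?_
  rw [Real.log_mul (by positivity) (by positivity), Real.log_pow, add_div]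
  unfold cW
  rw [← hP]
  have h4 : Real.log c ≤ 49 / 50 / nT 1 N := by
    have := Real.log_le_sub_one_of_pos hc0
    rw [hc] at this ⊢
    linarith
  have h5 : (j : ℝ) * Real.log c / Real.log (7 / 5) ≤ U1 * (j / nT 1 N) := by
    rw [div_le_iff₀ hl]
    have h6 : (j : ℝ) * Real.log c ≤ j * (49 / 50 / nT 1 N) :=
      mul_le_mul_of_nonneg_left h4 (Nat.cast_nonneg j)
    refine h6.trans ?_
    have h7 : (49 / 50 : ℝ) ≤ U1 * Real.log (7 / 5) := by
      have := log_bound
      unfold U1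
      linarith
    have h8 : (j : ℝ) * (49 / 50 / nT 1 N) = (49 / 50) * (j / nT 1 N) := by ring
    have h9 : U1 * (j / nT 1 N) * Real.log (7 / 5) = (U1 * Real.log (7 / 5)) * (j / nT 1 N) := by
      ring
    rw [h8, h9]
    exact mul_le_mul_of_nonneg_right h7 (by positivity)
  linarith

/-- the mean of the height of the origin after some rings in a box -/
lemma mean_box_le (hN : 9 ≤ N) (R j i : ℕ) :
    (PT 1 N ^ j) ((PB 1 R ^ i) (hgt 0)) (tilt 0) ≤
      U1 * (j / nT 1 N) + W R i cW := by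
  have h1 : (PB 1 R ^ i) (hgt 0) = fun g => W R i (fun w => ((act w g 0 : ℤ) : ℝ)) := by
    ext g
    rw [PB_pow_apply]
    rfl
  have h2 := W_exchange R i ((LinearMap.proj (tilt 0 : Conf 1) : Fn 1 →ₗ[ℝ] ℝ) ∘ₗ (PT 1 N ^ j))
    (fun w g => ((act w g 0 : ℤ) : ℝ))
  rw [h1]
  simp only [LinearMap.comp_apply, LinearMap.proj_apply] at h2
  rw [h2]
  have h3 : W R i (fun w => (PT 1 N ^ j) (fun g => ((act w g 0 : ℤ) : ℝ)) (tilt 0)) ≤
      W R i ((fun _ => U1 * (j / nT 1 N)) + cW) :=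
    W_mono R i fun w => mean_word_le hN j w
  rw [map_add, W_const] at h3
  exact h3

/-- the growth inequality for one letter of the box -/
lemma ces_step1 (hN : 9 ≤ N) {R : ℕ} (hR : 2 * R < N) {J : ℕ} (hJ : 0 < J) (i : ℕ) :
    ces 0 N J ((PB 1 R ^ (i + 1)) (hgt 0) - (PB 1 R ^ i) (hgt 0)) ≤
      U1 / (box 1 R).card + W R i cW * nT 1 N / ((box 1 R).card * J) := by
  set u : Fn 1 := (PB 1 R ^ i) (hgt 0) with hu
  have hT : (0 : ℝ) < nT 1 N := by exact_mod_cast nT_pos (d := 1) N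
  have hB : (0 : ℝ) < (box 1 R).card := by exact_mod_cast card_box_pos (d := 1) R
  have hJ' : (0 : ℝ) < J := by exact_mod_cast hJ
  have h1 : (PB 1 R ^ (i + 1)) (hgt 0) = PB 1 R u := by
    rw [pow_succ', Module.End.mul_apply]
  have h2 : ((box 1 R).card : ℝ) • (PB 1 R u - u) ≤ (nT 1 N : ℝ) • (PT 1 N u - u) := by
    intro h
    have := PB_sub_le_PT_sub N hR (monotone_PB_pow R i 0) h
    simpa using this
  have h3 := ces_mono N 0 J h2
  rw [map_smul, map_smul, ces_telescope, smul_eq_mul, smul_eq_mul] at h3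
  have h4 := mean_box_le hN R J i
  rw [← hu] at h4
  have h5 : (0 : ℝ) ≤ u (tilt 0) := by
    have := hgt_le_PB_pow R i 0 (tilt 0 : Conf 1)
    have h0 : hgt 0 (tilt 0 : Conf 1) = 0 := by simp [hgt, tilt]
    rw [h0] at this
    exact this
  have h6 : ((box 1 R).card : ℝ) * ces 0 N J (PB 1 R u - u) ≤ (nT 1 N : ℝ) * ((J : ℝ)⁻¹ *
      (U1 * (J / nT 1 N) + W R i cW)) := by
    refine h3.trans (mul_le_mul_of_nonneg_left (mul_le_mul_of_nonneg_left ?_ ?_) hT.le)
    · linarith
    · positivity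
  rw [h1]
  rw [← le_div_iff₀' hB] at h6
  refine h6.trans (le_of_eq ?_)
  field_simp

end

/-- the growth inequality for `I` letters of the box -/
theorem ces_growth1 (R I : ℕ) : ∃ C : ℝ, ∀ N : ℕ, 2 * R ≤ N → 8 ≤ N →
    cesN 0 N ((PB 1 R ^ I) (hgt 0) - hgt 0) ≤ U1 * (I / (box 1 R).card) + C / (N + 1) := by
  have hB : (0 : ℝ) < (box 1 R).card := by exact_mod_cast card_box_pos (d := 1) R
  induction I with
  | zero =>
    refine ⟨0, fun N _ _ => ?_⟩
    have : (PB 1 R ^ 0) (hgt 0) - hgt 0 = (fun _ => 0 : Fn 1) := by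
      ext g; simp
    rw [this, cesN_const]
    simp
  | succ I ih =>
    obtain ⟨C, hC⟩ := ih
    refine ⟨C + W R I cW / (box 1 R).card, fun N hN1 hN2 => ?_⟩
    have h1 := hC N hN1 hN2
    have h2 := ces_step1 (N := N + 1) (by omega) (R := R) (by omega) (JN_pos 1 N) I
    have h3 : (PB 1 R ^ (I + 1)) (hgt 0) - hgt 0 =
        ((PB 1 R ^ (I + 1)) (hgt 0) - (PB 1 R ^ I) (hgt 0)) + ((PB 1 R ^ I) (hgt 0) - hgt 0) := by
      abel
    have hT : (0 : ℝ) < nT 1 (N + 1) := by exact_mod_cast nT_pos (d := 1) (N + 1)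
    have h4 : W R I cW * nT 1 (N + 1) / ((box 1 R).card * (JN 1 N : ℕ)) =
        W R I cW / (box 1 R).card / (N + 1) := by
      unfold JN
      push_cast
      field_simp
    rw [h4] at h2
    rw [h3, map_add]
    change ces 0 (N + 1) (JN 1 N) _ + _ ≤ _
    push_cast
    have h5 : U1 * ((I + 1) / (box 1 R).card : ℝ) + (C + W R I cW / (box 1 R).card) / (N + 1) =
        (U1 / (box 1 R).card + W R I cW / (box 1 R).card / (N + 1)) +
          (U1 * (I / (box 1 R).card) + C / (N + 1)) := by ring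
    rw [h5]
    exact add_le_add h2 h1

end Pool.Agent.Lib.MP_67d80e_pr_d1
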