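import Pool.Agent.Lib.MP_67d80e_pr_d1.DataL

set_option autoImplicit false

noncomputable section

namespace Pool.Agent.Lib.MP_67d80e_pr_d1

/-- the row of the state `i` -/
def rowL (i : ℕ) : ℕ :=
  Nat.mod (Nat.shiftRight (dataL.get (Nat.div i 32)) (Nat.mul 157 (Nat.mod i 32))) (Nat.pow 2 157)

/-- the profile of the state `i` -/
def codL (i : ℕ) : ℕ := Nat.mod (rowL i) (Nat.pow 2 27)

/-- the value of the state `i`, times `10 ^ 5` -/
def fL (i : ℕ) : ℕ := Nat.mod (Nat.shiftRight (rowL i) 27) (Nat.pow 2 18)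

/-- the entry of the state `i` for a ring at position `k + 1` -/
def enL (i k : ℕ) : ℕ := Nat.mod (Nat.shiftRight (rowL i) (Nat.add 45 (Nat.mul 14 k))) (Nat.pow 2 14)

/-- the new state after a ring at position `k + 1` -/
def tL (i k : ℕ) : ℕ := Nat.mod (enL i k) 2048

/-- the change of level at a ring at position `k + 1` -/
def gL (i k : ℕ) : ℕ := Nat.mod (Nat.div (enL i k) 2048) 2

/-- the change of position, plus one, at a ring at position `k + 1` -/
def sL (i k : ℕ) : ℕ := Nat.div (enL i k) 4096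

/-- the check of a ring at position `k + 1` -/
def okL (i k : ℕ) : Bool :=
  or (Nat.beq (dg (codL i) (Nat.succ k)) 0)
    (and (Nat.ble (fL i) (Nat.add (Nat.mul 100000 (gL i k)) (fL (tL i k))))
    (and (Nat.ble (sL i k) 2)
      (pok 8 (codL i) (Nat.succ k) (codL (tL i k)) (sL i k) (gL i k))))

/-- the gain at a ring at position `k + 1` -/
def vL (i k : ℕ) : ℕ :=
  cond (Nat.beq (dg (codL i) (Nat.succ k)) 0) 0
    (Nat.sub (Nat.add (Nat.mul 100000 (gL i k)) (fL (tL i k))) (fL i))

/-- the sum of `f k` over `k < n` -/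
def sumL (n : ℕ) (f : ℕ → ℕ) : ℕ :=
  Nat.rec 0 (fun k ih => Nat.add (f k) ih) n

/-- the check of the state `i` -/
def chkL (i : ℕ) : Bool :=
  and (not (allN 8 (fun k => Nat.beq (dg (codL i) (Nat.succ k)) 0)))
    (and (allN 8 (okL i)) (Nat.ble 191500 (sumL 8 (vL i))))

end Pool.Agent.Lib.MP_67d80e_pr_d1
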