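import Pool.Agent.Lib.MP_67d80e_pr_d1.DataU

set_option autoImplicit false

noncomputable section

namespace Pool.Agent.Lib.MP_67d80e_pr_d1

/-- the row of the label `i` -/
def rowU (i : ℕ) : ℕ :=
  Nat.mod (Nat.shiftRight (dataU.get (Nat.div i 32)) (Nat.mul 182 (Nat.mod i 32))) (Nat.pow 2 182)

/-- the profile of the label `i` -/
def codU (i : ℕ) : ℕ := Nat.mod (rowU i) (Nat.pow 2 30)

/-- the weight of the label `i` -/
def phiU (i : ℕ) : ℕ := Nat.mod (Nat.shiftRight (rowU i) 30) (Nat.pow 2 20)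

/-- the targets of the label `i` -/
def tgU (i s : ℕ) : ℕ := Nat.mod (Nat.shiftRight (rowU i) (Nat.add 50 (Nat.mul 12 s))) 4096

/-- the ring at position `m` creates the centre anew -/
def killed (c m : ℕ) : Bool :=
  or (and (Nat.beq m 4) (Nat.ble 3 (dg c 4))) (and (Nat.beq m 6) (Nat.ble 4 (dg c 6)))

/-- the check of the target of a ring at position `k + 1` -/
def okU (i c k : ℕ) : Bool :=
  or (Nat.beq (dg c (Nat.succ k)) 0) (or (killed c (Nat.succ k))
    (pok 9 c (Nat.succ k) (codU (tgU i (Nat.succ k))) 1 (cond (Nat.beq k 4) 1 0)))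

/-- the contribution of a ring at position `m` -/
def vU (i c m : ℕ) : ℕ :=
  cond (Nat.beq (dg c m) 0) (Nat.mul 35 (phiU i))
    (cond (killed c m) 0 (Nat.mul (cond (Nat.beq m 5) 49 35) (phiU (tgU i m))))

/-- the contribution of the created neighbours -/
def wU (i c : ℕ) : ℕ :=
  Nat.add (cond (Nat.ble (dg c 6) 3) (Nat.mul 49 (phiU (tgU i 0))) 0)
    (cond (Nat.ble (dg c 4) 2) (Nat.mul 25 (phiU (tgU i 10))) 0)

/-- the sum of `f (k + 1)` over `k < n` -/
def sumN (n : ℕ) (f : ℕ → ℕ) : ℕ :=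
  Nat.rec 0 (fun k ih => Nat.add (f (Nat.succ k)) ih) n

/-- the check of the label `i` -/
def chkU (i : ℕ) : Bool :=
  and (Nat.beq (dg (codU i) 5) 3)
  (and (Nat.ble 1 (phiU i))
  (and (cond (Nat.ble (dg (codU i) 6) 3) (pok 9 (codU i) 5 (codU (tgU i 0)) 2 0) true)
  (and (cond (Nat.ble (dg (codU i) 4) 2) (pok 9 (codU i) 5 (codU (tgU i 10)) 0 0) true)
  (and (allN 9 (okU i (codU i)))
    (Nat.ble (Nat.mul 10 (Nat.add (wU i (codU i)) (sumN 9 (vU i (codU i)))))
      (Nat.mul 3493 (phiU i)))))))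

end Pool.Agent.Lib.MP_67d80e_pr_d1
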