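import Pool.Agent.Lib.MP_67d80e_pr_d1.Drop
import Pool.Agent.Lib.MP_67d80e_pr_d1.ChkU

set_option autoImplicit false

open scoped BigOperators
open Filter MeasureTheory
open Pool.Agent.Lib.MP_67d80e_pr

namespace Pool.Agent.Lib.MP_67d80e_pr_d1

lemma sumN_eq (n : ℕ) (f : ℕ → ℕ) : sumN n f = ∑ k ∈ Finset.range n, f (k + 1) := by
  induction n with
  | zero => rfl
  | succ n ih =>
    change f (n + 1) + sumN n f = _
    rw [Finset.sum_range_succ, ← ih, add_comm (f (n + 1))]

lemma tgU_lt (i s : ℕ) : tgU i s < 4096 := Nat.mod_lt _ (by norm_num)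

lemma chkU_spec {i : ℕ} (hi : i < 4096) : dg (codU i) 5 = 3 ∧ 1 ≤ phiU i ∧
    (dg (codU i) 6 ≤ 3 → pok 9 (codU i) 5 (codU (tgU i 0)) 2 0 = true) ∧
    (dg (codU i) 4 ≤ 2 → pok 9 (codU i) 5 (codU (tgU i 10)) 0 0 = true) ∧
    (∀ m, 1 ≤ m → m ≤ 9 → dg (codU i) m ≠ 0 → killed (codU i) m = false →
      pok 9 (codU i) m (codU (tgU i m)) 1 (if m = 5 then 1 else 0) = true) ∧
    10 * (wU i (codU i) + ∑ k ∈ Finset.range 9, vU i (codU i) (k + 1)) ≤ 3493 * phiU i := by
  have h := chkU_all hi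
  unfold chkU at h
  simp only [band_iff, beq_iff, ble_iff, cond_eq] at h
  obtain ⟨h1, h2, h3, h4, h5, h6⟩ := h
  refine ⟨h1, h2, fun h7 => ?_, fun h7 => ?_, fun m hm1 hm9 hm hk => ?_, ?_⟩
  · rwa [if_pos h7] at h3
  · rwa [if_pos h7] at h4
  · have h7 := allN_spec h5 (show m - 1 < 9 by omega)
    unfold okU at h7
    have h8 : Nat.succ (m - 1) = m := by omega
    simp only [h8, bor_iff, beq_iff, cond_eq] at h7
    rcases h7 with h7 | h7 | h7
    · exact absurd h7 hm
    · rw [hk] at h7; exact absurd h7 (by simp)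
    · have h9 : (m - 1 = 4) ↔ (m = 5) := by omega
      simp only [h9] at h7
      exact h7
  · rw [sumN_eq] at h6
    exact h6

/-- the level of a droplet at a site -/
noncomputable def lv (a : Dr) (z : ℤ) : ℤ := (a z).unbotD 0

lemma lv_coe {a : Dr} {z n : ℤ} (h : a z = (n : WithBot ℤ)) : lv a z = n := by
  unfold lv; rw [h]; rfl

lemma coe_lv {a : Dr} {z : ℤ} (h : a z ≠ ⊥) : ((lv a z : ℤ) : WithBot ℤ) = a z := by
  obtain ⟨n, hn⟩ := WithBot.ne_bot_iff_exists.1 h
  rw [lv_coe hn.symm, hn]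

/-- the weights of the labels which are valid at a site -/
def Lab (a : Dr) (z : ℤ) : Set ℕ :=
  {f | ∃ i, i < 4096 ∧ f = phiU i ∧ Val a (codU i) (z - 5) (lv a z - 3)}

/-- the smallest weight of a valid label -/
noncomputable def mn (a : Dr) (z : ℤ) : ℕ := sInf (Lab a z)

lemma codU_root : codU 4048 = 98304 := by decide +kernel

lemma dg_root {m : ℕ} (h : dg 98304 m ≠ 0) : m = 5 := by
  by_contra hm
  apply h
  rcases Nat.lt_or_ge m 6 with h1 | h1
  · interval_cases m <;> first | rfl | omega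
  · have h2 : (98304 : ℕ) < 8 ^ m := by
      calc (98304 : ℕ) < 8 ^ 6 := by norm_num
        _ ≤ 8 ^ m := Nat.pow_le_pow_right (by norm_num) h1
    rw [dg_eq, Nat.div_eq_of_lt h2]

lemma Lab_nonempty {a : Dr} {z : ℤ} (h : a z ≠ ⊥) : (Lab a z).Nonempty := by
  refine ⟨phiU 4048, 4048, by norm_num, rfl, ?_⟩
  rw [codU_root]
  intro m hm
  have hm5 := dg_root hm
  subst hm5
  have h1 : dg 98304 5 = 3 := rfl
  rw [h1]
  have h2 : lv a z - 3 + ((3 : ℕ) : ℤ) = lv a z := by push_cast; ring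
  have h3 : z - 5 + ((5 : ℕ) : ℤ) = z := by push_cast; ring
  rw [h2, h3, coe_lv h]

/-- the label used at a site -/
noncomputable def lb (a : Dr) (z : ℤ) : ℕ :=
  open Classical in
  if h : ∃ i, i < 4096 ∧ mn a z = phiU i ∧ Val a (codU i) (z - 5) (lv a z - 3) then h.choose else 0

lemma lb_spec {a : Dr} {z : ℤ} (h : a z ≠ ⊥) :
    lb a z < 4096 ∧ mn a z = phiU (lb a z) ∧ Val a (codU (lb a z)) (z - 5) (lv a z - 3) := by
  have h1 : ∃ i, i < 4096 ∧ mn a z = phiU i ∧ Val a (codU i) (z - 5) (lv a z - 3) :=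
    Nat.sInf_mem (Lab_nonempty h)
  unfold lb
  rw [dif_pos h1]
  exact h1.choose_spec

lemma mn_le {a : Dr} {z : ℤ} {i : ℕ} (hi : i < 4096)
    (hv : Val a (codU i) (z - 5) (lv a z - 3)) : mn a z ≤ phiU i :=
  Nat.sInf_le ⟨i, hi, rfl, hv⟩

lemma mn_pos {a : Dr} {z : ℤ} (h : a z ≠ ⊥) : 1 ≤ mn a z := by
  obtain ⟨h1, h2, -⟩ := lb_spec h
  rw [h2]
  exact (chkU_spec h1).2.1

open Classical in
/-- the exponential weight of a site -/
noncomputable def wq (a : Dr) (z : ℤ) : ℝ := if a z = ⊥ then 0 else (7 / 5 : ℝ) ^ (lv a z + z)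

lemma wq_nonneg (a : Dr) (z : ℤ) : 0 ≤ wq a z := by
  unfold wq; split_ifs <;> positivity

/-- the weight of a site -/
noncomputable def wt (a : Dr) (z : ℤ) : ℝ := wq a z * mn a z

lemma wt_nonneg (a : Dr) (z : ℤ) : 0 ≤ wt a z := mul_nonneg (wq_nonneg a z) (Nat.cast_nonneg _)

open Classical in
/-- the contribution of a site to its own weight after a ring -/
noncomputable def own (S : Set (Site 1)) (a : Dr) (z : ℤ) : ℝ :=
  wq a z / 35 * ((if ∀ k ∈ Finset.range 9, st1 (z - 5 + ((k + 1 : ℕ) : ℤ)) ∉ S then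
      35 * (phiU (lb a z) : ℝ) else 0) +
    ∑ k ∈ Finset.range 9, if st1 (z - 5 + ((k + 1 : ℕ) : ℤ)) ∈ S then
      (vU (lb a z) (codU (lb a z)) (k + 1) : ℝ) else 0)

open Classical in
/-- the weight of the right neighbour created by a ring -/
noncomputable def cR (S : Set (Site 1)) (a : Dr) (z : ℤ) : ℝ :=
  wq a z / 35 * (if st1 z ∈ S ∧ dg (codU (lb a z)) 6 ≤ 3 then
    49 * (phiU (tgU (lb a z) 0) : ℝ) else 0)

open Classical in
/-- the weight of the left neighbour created by a ring -/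
noncomputable def cL (S : Set (Site 1)) (a : Dr) (z : ℤ) : ℝ :=
  wq a z / 35 * (if st1 z ∈ S ∧ dg (codU (lb a z)) 4 ≤ 2 then
    25 * (phiU (tgU (lb a z) 10) : ℝ) else 0)

lemma own_nonneg (S : Set (Site 1)) (a : Dr) (z : ℤ) : 0 ≤ own S a z := by
  unfold own
  refine mul_nonneg (div_nonneg (wq_nonneg a z) (by norm_num)) (add_nonneg ?_ ?_)
  · split_ifs <;> positivity
  · exact Finset.sum_nonneg fun k _ => by split_ifs <;> positivity

lemma cR_nonneg (S : Set (Site 1)) (a : Dr) (z : ℤ) : 0 ≤ cR S a z := by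
  unfold cR
  refine mul_nonneg (div_nonneg (wq_nonneg a z) (by norm_num)) ?_
  split_ifs <;> positivity

lemma cL_nonneg (S : Set (Site 1)) (a : Dr) (z : ℤ) : 0 ≤ cL S a z := by
  unfold cL
  refine mul_nonneg (div_nonneg (wq_nonneg a z) (by norm_num)) ?_
  split_ifs <;> positivity

/-- the weight of a site is at most the weight of any valid label -/
lemma wt_le {a : Dr} {z n : ℤ} (h : a z = (n : WithBot ℤ)) {i : ℕ} (hi : i < 4096)
    (hv : Val a (codU i) (z - 5) (n - 3)) : wt a z ≤ (7 / 5 : ℝ) ^ (n + z) * phiU i := by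
  have hne : a z ≠ ⊥ := by rw [h]; exact WithBot.coe_ne_bot
  unfold wt wq
  rw [if_neg hne, lv_coe h]
  have h1 : mn a z ≤ phiU i := mn_le hi (by rw [lv_coe h]; exact hv)
  have h2 : (mn a z : ℝ) ≤ phiU i := by exact_mod_cast h1
  exact mul_le_mul_of_nonneg_left h2 (by positivity)

/-- a ring in the window contributes its value -/
lemma own_ge_of_mem {S : Set (Site 1)} {a : Dr} {z n : ℤ} (h : a z = (n : WithBot ℤ)) {m : ℕ}
    (hm1 : 1 ≤ m) (hm9 : m ≤ 9) (hmS : st1 (z - 5 + m) ∈ S) :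
    (7 / 5 : ℝ) ^ (n + z) / 35 * vU (lb a z) (codU (lb a z)) m ≤ own S a z := by
  classical
  have hne : a z ≠ ⊥ := by rw [h]; exact WithBot.coe_ne_bot
  unfold own wq
  rw [if_neg hne, lv_coe h]
  refine mul_le_mul_of_nonneg_left ?_ (by positivity)
  refine le_add_of_nonneg_of_le (by split_ifs <;> positivity) ?_
  have h1 : ∀ k ∈ Finset.range 9, (0 : ℝ) ≤ if st1 (z - 5 + ((k + 1 : ℕ) : ℤ)) ∈ S then
      (vU (lb a z) (codU (lb a z)) (k + 1) : ℝ) else 0 := fun k _ => by split_ifs <;> positivity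
  refine le_trans (le_of_eq ?_) (Finset.single_le_sum h1 (Finset.mem_range.2
    (show m - 1 < 9 by omega)))
  have h2 : m - 1 + 1 = m := by omega
  rw [h2, if_pos hmS]

lemma own_ge_of_notMem {S : Set (Site 1)} {a : Dr} {z n : ℤ} (h : a z = (n : WithBot ℤ))
    (hS : ∀ m : ℕ, 1 ≤ m → m ≤ 9 → st1 (z - 5 + m) ∉ S) :
    (7 / 5 : ℝ) ^ (n + z) * phiU (lb a z) ≤ own S a z := by
  classical
  have hne : a z ≠ ⊥ := by rw [h]; exact WithBot.coe_ne_bot
  unfold own wq
  rw [if_neg hne, lv_coe h]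
  rw [if_pos (fun k hk => hS (k + 1) (by omega) (by have := Finset.mem_range.1 hk; omega))]
  have h1 : (0 : ℝ) ≤ ∑ k ∈ Finset.range 9, if st1 (z - 5 + ((k + 1 : ℕ) : ℤ)) ∈ S then
      (vU (lb a z) (codU (lb a z)) (k + 1) : ℝ) else 0 :=
    Finset.sum_nonneg fun k _ => by split_ifs <;> positivity
  have h2 : (0 : ℝ) < (7 / 5 : ℝ) ^ (n + z) := by positivity
  have h3 : (7 / 5 : ℝ) ^ (n + z) * phiU (lb a z) =
      (7 / 5 : ℝ) ^ (n + z) / 35 * (35 * (phiU (lb a z) : ℝ)) := by ring
  rw [h3]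
  refine mul_le_mul_of_nonneg_left ?_ (by positivity)
  linarith

/-- the own contribution bounds the weight if the level does not change and the centre does
not ring -/
lemma wt_le_own {S : Set (Site 1)} {a : Dr} {z n : ℤ} (h : a z = (n : WithBot ℤ))
    (h' : upd S a z = (n : WithBot ℤ)) (hz : st1 z ∉ S)
    (h4 : st1 (z - 1) ∈ S → a (z - 1) < (n : WithBot ℤ))
    (h6 : st1 (z + 1) ∈ S → a (z + 1) ≤ (n : WithBot ℤ)) :
    wt (upd S a) z ≤ own S a z := by
  have hne : a z ≠ ⊥ := by rw [h]; exact WithBot.coe_ne_bot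
  obtain ⟨hi, hmn, hval⟩ := lb_spec hne
  rw [lv_coe h] at hval
  obtain ⟨c1, c2, c3, c4, c5, c6⟩ := chkU_spec hi
  set i := lb a z with hidef
  by_cases hex : ∃ m : ℕ, 1 ≤ m ∧ m ≤ 9 ∧ st1 (z - 5 + m) ∈ S
  · obtain ⟨m, hm1, hm9, hmS⟩ := hex
    have hm5 : m ≠ 5 := by
      rintro rfl
      apply hz
      have : z - 5 + ((5 : ℕ) : ℤ) = z := by push_cast; ring
      rwa [this] at hmS
    refine le_trans ?_ (own_ge_of_mem h hm1 hm9 hmS)
    rw [← hidef]
    unfold vU
    simp only [cond_eq, beq_iff]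
    by_cases hd : dg (codU i) m = 0
    · rw [if_pos hd]
      refine (wt_le h' hi (hval.mono (le_upd S a))).trans (le_of_eq ?_)
      change _ = (7 / 5 : ℝ) ^ (n + z) / 35 * ((35 * phiU i : ℕ) : ℝ)
      push_cast
      ring
    · rw [if_neg hd]
      have hk : killed (codU i) m = false := by
        by_contra hk
        rw [Bool.not_eq_false] at hk
        unfold killed at hk
        simp only [bor_iff, band_iff, beq_iff, ble_iff] at hk
        have hvm := hval m hd
        rcases hk with ⟨rfl, hk⟩ | ⟨rfl, hk⟩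
        · have e1 : z - 5 + ((4 : ℕ) : ℤ) = z - 1 := by push_cast; ring
          rw [e1] at hvm hmS
          have := hvm.trans_lt (h4 hmS)
          have h7 : n - 3 + (dg (codU i) 4 : ℤ) < n := by exact_mod_cast this
          omega
        · have e1 : z - 5 + ((6 : ℕ) : ℤ) = z + 1 := by push_cast; ring
          rw [e1] at hvm hmS
          have := hvm.trans (h6 hmS)
          have h7 : n - 3 + (dg (codU i) 6 : ℤ) ≤ n := by exact_mod_cast this
          omega
      rw [hk, if_neg (by simp)]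
      rw [if_neg hm5]
      have hp := c5 m hm1 hm9 hd hk
      rw [if_neg hm5] at hp
      have hv := hval.step hmS hp
      have e1 : z - 5 + ((1 : ℕ) : ℤ) - 1 = z - 5 := by push_cast; ring
      have e2 : n - 3 + ((0 : ℕ) : ℤ) = n - 3 := by push_cast; ring
      rw [e1, e2] at hv
      refine (wt_le h' (tgU_lt i m) hv).trans (le_of_eq ?_)
      change _ = (7 / 5 : ℝ) ^ (n + z) / 35 * ((35 * phiU (tgU i m) : ℕ) : ℝ)
      push_cast
      ring
  · push Not at hex
    refine le_trans ?_ (own_ge_of_notMem h hex)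
    exact wt_le h' hi (hval.mono (le_upd S a))

/-- the termwise bound -/
theorem wt_upd_le {S : Set (Site 1)}
    (hS : ∀ y z : ℤ, st1 y ∈ S → st1 z ∈ S → |y - z| ≤ 8 → y = z) (a : Dr) (z : ℤ) :
    wt (upd S a) z ≤ own S a z + cR S a (z - 1) + cL S a (z + 1) := by
  classical
  have n1 := own_nonneg S a z
  have n2 := cR_nonneg S a (z - 1)
  have n3 := cL_nonneg S a (z + 1)
  by_cases hbot : upd S a z = ⊥
  · have : wt (upd S a) z = 0 := by unfold wt wq; rw [if_pos hbot, zero_mul]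
    rw [this]
    positivity
  by_cases hz : st1 z ∈ S
  · -- the centre rings
    have hr : st1 (z + 1) ∉ S := fun h => by
      have := hS z (z + 1) hz h (by rw [show z - (z + 1) = -1 by ring]; norm_num)
      omega
    have hl : st1 (z - 1) ∉ S := fun h => by
      have := hS z (z - 1) hz h (by rw [show z - (z - 1) = 1 by ring]; norm_num)
      omega
    have hu : upd S a z = a z + 1 := by
      unfold upd
      rw [if_pos hz, if_neg hr, if_neg hl]
      simp
    have hne : a z ≠ ⊥ := by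
      intro h0
      apply hbot
      rw [hu, h0]; rfl
    obtain ⟨n, hn⟩ := WithBot.ne_bot_iff_exists.1 hne
    have hn := hn.symm
    have hu' : upd S a z = ((n + 1 : ℤ) : WithBot ℤ) := by rw [hu, hn]; rfl
    obtain ⟨hi, hmn, hval⟩ := lb_spec hne
    rw [lv_coe hn] at hval
    obtain ⟨c1, c2, c3, c4, c5, c6⟩ := chkU_spec hi
    have e5 : z - 5 + ((5 : ℕ) : ℤ) = z := by push_cast; ring
    have hd : dg (codU (lb a z)) 5 ≠ 0 := by rw [c1]; norm_num
    have hk : killed (codU (lb a z)) 5 = false := rfl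
    have hp := c5 5 (by norm_num) (by norm_num) hd hk
    rw [if_pos rfl] at hp
    have hv := hval.step (j := 5) (by rw [e5]; exact hz) hp
    have e1 : z - 5 + ((1 : ℕ) : ℤ) - 1 = z - 5 := by push_cast; ring
    have e2 : n - 3 + ((1 : ℕ) : ℤ) = n + 1 - 3 := by push_cast; ring
    rw [e1, e2] at hv
    have h1 := wt_le hu' (tgU_lt (lb a z) 5) hv
    have h2 := own_ge_of_mem (S := S) hn (m := 5) (by norm_num) (by norm_num)
      (by rw [e5]; exact hz)
    have h3 : (vU (lb a z) (codU (lb a z)) 5 : ℝ) = 49 * phiU (tgU (lb a z) 5) := by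
      unfold vU
      simp only [cond_eq, beq_iff]
      rw [if_neg hd, hk, if_neg (by simp), if_pos trivial]
      change ((49 * phiU (tgU (lb a z) 5) : ℕ) : ℝ) = _
      push_cast
      ring
    rw [h3] at h2
    have h4 : (7 / 5 : ℝ) ^ (n + 1 + z) = (7 / 5 : ℝ) ^ (n + z) * (7 / 5) := by
      rw [show n + 1 + z = n + z + 1 by ring, zpow_add_one₀ (by norm_num)]
    rw [h4] at h1
    linarith
  by_cases hl : st1 (z - 1) ∈ S
  · have hr : st1 (z + 1) ∉ S := fun h => by
      have := hS (z - 1) (z + 1) hl h (by rw [show z - 1 - (z + 1) = -2 by ring]; norm_num)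
      omega
    have hu : upd S a z = max (a z) (a (z - 1)) := by
      unfold upd
      rw [if_neg hz, if_neg hr, if_pos hl]
      simp
    rcases le_or_gt (a z) (a (z - 1)) with hle | hlt
    · -- created by the left neighbour
      rw [max_eq_right hle] at hu
      have hne : a (z - 1) ≠ ⊥ := by rw [← hu]; exact hbot
      obtain ⟨n, hn⟩ := WithBot.ne_bot_iff_exists.1 hne
      have hn := hn.symm
      obtain ⟨hi, hmn, hval⟩ := lb_spec hne
      rw [lv_coe hn] at hval
      obtain ⟨c1, c2, c3, c4, c5, c6⟩ := chkU_spec hi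
      have hd : dg (codU (lb a (z - 1))) 6 ≤ 3 := by
        by_contra hcon
        have h1 := hval 6 (by omega)
        have e1 : z - 1 - 5 + ((6 : ℕ) : ℤ) = z := by push_cast; ring
        rw [e1] at h1
        have h2 := h1.trans hle
        rw [hn] at h2
        have h3 : n - 3 + (dg (codU (lb a (z - 1))) 6 : ℤ) ≤ n := by exact_mod_cast h2
        omega
      have hv := hval.step (j := 5) (by
        rw [show z - 1 - 5 + ((5 : ℕ) : ℤ) = z - 1 by push_cast; ring]; exact hl) (c3 hd)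
      have e1 : z - 1 - 5 + ((2 : ℕ) : ℤ) - 1 = z - 5 := by push_cast; ring
      have e2 : n - 3 + ((0 : ℕ) : ℤ) = n - 3 := by push_cast; ring
      rw [e1, e2] at hv
      have h1 := wt_le (hu.trans hn) (tgU_lt (lb a (z - 1)) 0) hv
      have h2 : cR S a (z - 1) = (7 / 5 : ℝ) ^ (n + z) * phiU (tgU (lb a (z - 1)) 0) := by
        unfold cR wq
        rw [if_neg hne, lv_coe hn, if_pos ⟨hl, hd⟩]
        have h4 : (7 / 5 : ℝ) ^ (n + z) = (7 / 5 : ℝ) ^ (n + (z - 1)) * (7 / 5) := by
          rw [show n + z = n + (z - 1) + 1 by ring, zpow_add_one₀ (by norm_num)]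
        rw [h4]
        ring
      rw [h2]
      linarith
    · rw [max_eq_left hlt.le] at hu
      have hne : a z ≠ ⊥ := by rw [← hu]; exact hbot
      obtain ⟨n, hn⟩ := WithBot.ne_bot_iff_exists.1 hne
      have hn := hn.symm
      have := wt_le_own hn (hu.trans hn) hz (fun _ => by rw [← hn]; exact hlt)
        (fun h => absurd h hr)
      linarith
  by_cases hr : st1 (z + 1) ∈ S
  · have hu : upd S a z = max (a z) (a (z + 1)) := by
      unfold upd
      rw [if_neg hz, if_pos hr, if_neg hl]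
      simp
    rcases lt_or_ge (a z) (a (z + 1)) with hlt | hle
    · -- created by the right neighbour
      rw [max_eq_right hlt.le] at hu
      have hne : a (z + 1) ≠ ⊥ := by rw [← hu]; exact hbot
      obtain ⟨n, hn⟩ := WithBot.ne_bot_iff_exists.1 hne
      have hn := hn.symm
      obtain ⟨hi, hmn, hval⟩ := lb_spec hne
      rw [lv_coe hn] at hval
      obtain ⟨c1, c2, c3, c4, c5, c6⟩ := chkU_spec hi
      have hd : dg (codU (lb a (z + 1))) 4 ≤ 2 := by
        by_contra hcon
        have h1 := hval 4 (by omega)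
        have e1 : z + 1 - 5 + ((4 : ℕ) : ℤ) = z := by push_cast; ring
        rw [e1] at h1
        have h2 := h1.trans_lt hlt
        rw [hn] at h2
        have h3 : n - 3 + (dg (codU (lb a (z + 1))) 4 : ℤ) < n := by exact_mod_cast h2
        omega
      have hv := hval.step (j := 5) (by
        rw [show z + 1 - 5 + ((5 : ℕ) : ℤ) = z + 1 by push_cast; ring]; exact hr) (c4 hd)
      have e1 : z + 1 - 5 + ((0 : ℕ) : ℤ) - 1 = z - 5 := by push_cast; ring
      have e2 : n - 3 + ((0 : ℕ) : ℤ) = n - 3 := by push_cast; ring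
      rw [e1, e2] at hv
      have h1 := wt_le (hu.trans hn) (tgU_lt (lb a (z + 1)) 10) hv
      have h2 : cL S a (z + 1) = (7 / 5 : ℝ) ^ (n + z) * phiU (tgU (lb a (z + 1)) 10) := by
        unfold cL wq
        rw [if_neg hne, lv_coe hn, if_pos ⟨hr, hd⟩]
        have h4 : (7 / 5 : ℝ) ^ (n + (z + 1)) = (7 / 5 : ℝ) ^ (n + z) * (7 / 5) := by
          rw [show n + (z + 1) = n + z + 1 by ring, zpow_add_one₀ (by norm_num)]
        rw [h4]
        ring
      rw [h2]
      linarith
    · rw [max_eq_left hle] at hu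
      have hne : a z ≠ ⊥ := by rw [← hu]; exact hbot
      obtain ⟨n, hn⟩ := WithBot.ne_bot_iff_exists.1 hne
      have hn := hn.symm
      have := wt_le_own hn (hu.trans hn) hz (fun h => absurd h hl)
        (fun _ => by rw [← hn]; exact hle)
      linarith
  · have hu : upd S a z = a z := by
      unfold upd
      rw [if_neg hz, if_neg hr, if_neg hl]
      simp
    have hne : a z ≠ ⊥ := by rw [← hu]; exact hbot
    obtain ⟨n, hn⟩ := WithBot.ne_bot_iff_exists.1 hne
    have hn := hn.symm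
    have := wt_le_own hn (hu.trans hn) hz (fun h => absurd h hl) (fun h => absurd h hr)
    linarith

end Pool.Agent.Lib.MP_67d80e_pr_d1
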